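import Mathlib

/-!
Common refinement of two factorizations of a natural number, and the cut lemma.
-/

set_option autoImplicit false

namespace Pool.Agent.H30.Vino

/-- A divisor of a product splits as a product of divisors of the factors. -/
lemma exists_dvd_split {β : Type*} [DecidableEq β] (t : Finset β) (b : β → ℕ) :
    ∀ d : ℕ, d ∣ ∏ j ∈ t, b j → ∃ e : β → ℕ, (∀ j ∈ t, e j ∣ b j) ∧ ∏ j ∈ t, e j = d := by
  induction t using Finset.induction_on with
  | empty =>
    intro d hd
    refine ⟨fun _ => 1, by simp, ?_⟩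
    simp only [Finset.prod_empty] at hd ⊢
    exact (Nat.dvd_one.1 hd).symm
  | insert j0 t hj ih =>
    intro d hd
    rw [Finset.prod_insert hj] at hd
    obtain ⟨d1, d2, h1, h2, rfl⟩ := exists_dvd_and_dvd_of_dvd_mul hd
    obtain ⟨e, he1, he2⟩ := ih d2 h2
    refine ⟨fun j => if j = j0 then d1 else e j, ?_, ?_⟩
    · intro j hj'
      simp only
      split_ifs with h
      · rw [h]; exact h1
      · exact he1 j ((Finset.mem_insert.1 hj').resolve_left h)
    · rw [Finset.prod_insert hj, if_pos rfl, ← he2]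
      congr 1
      apply Finset.prod_congr rfl
      intro j hj'
      rw [if_neg]
      rintro rfl
      exact hj hj'

/-- Riesz refinement: two factorizations of the same positive number have a common refinement. -/
lemma exists_refine {α β : Type*} [DecidableEq α] [DecidableEq β] (s : Finset α) (t : Finset β)
    (a : α → ℕ) :
    ∀ b : β → ℕ, (∀ j ∈ t, 0 < b j) → ∏ i ∈ s, a i = ∏ j ∈ t, b j →
      ∃ δ : α → β → ℕ, (∀ i ∈ s, ∏ j ∈ t, δ i j = a i) ∧ ∀ j ∈ t, ∏ i ∈ s, δ i j = b j := by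
  induction s using Finset.induction_on with
  | empty =>
    intro b hb h
    refine ⟨fun _ _ => 1, by simp, ?_⟩
    intro j hj
    simp only [Finset.prod_empty] at h ⊢
    have : b j ∣ 1 := h ▸ Finset.dvd_prod_of_mem b hj
    exact (Nat.dvd_one.1 this).symm
  | insert i0 s hi ih =>
    intro b hb h
    rw [Finset.prod_insert hi] at h
    obtain ⟨e, he1, he2⟩ := exists_dvd_split t b (a i0) (h ▸ Dvd.intro _ rfl)
    have hepos : ∀ j ∈ t, 0 < e j := fun j hj => Nat.pos_of_dvd_of_pos (he1 j hj) (hb j hj)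
    have hb' : ∀ j ∈ t, e j * (b j / e j) = b j := fun j hj => Nat.mul_div_cancel' (he1 j hj)
    have hpos : 0 < a i0 := he2 ▸ Finset.prod_pos hepos
    obtain ⟨δ, hd1, hd2⟩ := ih (fun j => b j / e j)
      (fun j hj => Nat.div_pos (Nat.le_of_dvd (hb j hj) (he1 j hj)) (hepos j hj))
      (by
        apply Nat.eq_of_mul_eq_mul_left hpos
        rw [h]
        conv_rhs => rw [← he2]
        rw [← Finset.prod_mul_distrib]
        exact Finset.prod_congr rfl fun j hj => (hb' j hj).symm)
    refine ⟨fun i j => if i = i0 then e j else δ i j, ?_, ?_⟩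
    · intro i hi'
      by_cases h0 : i = i0
      · simp only [h0, if_true]; exact he2
      · simp only [h0, if_false]
        exact hd1 i ((Finset.mem_insert.1 hi').resolve_left h0)
    · intro j hj
      rw [Finset.prod_insert hi]
      simp only [if_true]
      have : ∏ i ∈ s, (if i = i0 then e j else δ i j) = ∏ i ∈ s, δ i j := by
        apply Finset.prod_congr rfl
        intro i hi'
        rw [if_neg]
        rintro rfl
        exact hi hi'
      rw [this, hd2 j hj]
      exact hb' j hj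

section cut
variable {V : Type*} [Fintype V] [DecidableEq V]

/-- The multiplicative weight of a cut. -/
def cutW (w : V → V → ℕ) (S : Finset V) : ℕ := ∏ x ∈ S, ∏ y ∈ Sᶜ, w x y

lemma cutW_compl (w : V → V → ℕ) (hw : ∀ x y, w x y = w y x) (S : Finset V) :
    cutW w Sᶜ = cutW w S := by
  unfold cutW
  rw [compl_compl, Finset.prod_comm]
  exact Finset.prod_congr rfl fun x _ => Finset.prod_congr rfl fun y _ => hw y x

lemma cut_local (w : V → V → ℕ) (hw : ∀ x y, w x y = w y x) (hpos : ∀ x y, 0 < w x y)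
    (S : Finset V) (hS : ∀ S', cutW w S' ≤ cutW w S) (v : V) (hv : v ∉ S) (hvv : w v v = 1) :
    ∏ y, w v y ≤ (∏ y ∈ S, w v y) ^ 2 := by
  have h1 : cutW w S = (∏ x ∈ S, w x v) * ∏ x ∈ S, ∏ y ∈ Sᶜ.erase v, w x y := by
    unfold cutW
    rw [← Finset.prod_mul_distrib]
    apply Finset.prod_congr rfl
    intro x _
    rw [Finset.mul_prod_erase]
    exact Finset.mem_compl.2 hv
  have h2 : cutW w (insert v S) = (∏ y ∈ Sᶜ.erase v, w v y) *
      ∏ x ∈ S, ∏ y ∈ Sᶜ.erase v, w x y := by
    unfold cutW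
    rw [Finset.prod_insert hv, Finset.compl_insert]
  have h3 := hS (insert v S)
  rw [h1, h2] at h3
  have h4 : 0 < ∏ x ∈ S, ∏ y ∈ Sᶜ.erase v, w x y :=
    Finset.prod_pos fun x _ => Finset.prod_pos fun y _ => hpos x y
  have h5 := Nat.le_of_mul_le_mul_right h3 h4
  have h6 : ∏ x ∈ S, w x v = ∏ x ∈ S, w v x := Finset.prod_congr rfl fun x _ => hw x v
  rw [h6] at h5
  have h7 : ∏ y, w v y = (∏ y ∈ S, w v y) * ∏ y ∈ Sᶜ.erase v, w v y := by
    rw [← Finset.prod_mul_prod_compl S]
    congr 1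
    rw [← Finset.mul_prod_erase _ _ (Finset.mem_compl.2 hv), hvv, one_mul]
  rw [h7, sq]
  exact Nat.mul_le_mul_left _ h5

end cut

section arith
variable {m : ℕ}

/-- The conclusion of the arithmetic cut lemma for one side of the cut. -/
lemma arith_side (a b : Fin m → ℕ) (c c' : ℕ) (δ : Option (Fin m) → Option (Fin m) → ℕ)
    (hcop : ∀ i, Nat.Coprime (a i) (b i))
    (hpos : ∀ x y, 0 < δ x y)
    (hrow : ∀ i, ∏ y, δ (some i) y = a i) (hcol : ∀ i, ∏ x, δ x (some i) = b i)
    (hrow0 : ∏ y, δ none y = c) (hcol0 : ∏ x, δ x none = c')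
    (S : Finset (Option (Fin m)))
    (hS : ∀ S', cutW (fun x y => δ x y * δ y x) S' ≤ cutW (fun x y => δ x y * δ y x) S)
    (i : Fin m) (hi : some i ∉ S) :
    ∃ α β : ℕ, α ∣ a i ∧ β ∣ b i ∧
      α ∣ c' * ∏ j ∈ Finset.univ.filter (fun j => some j ∈ S), b j ∧
      β ∣ c * ∏ j ∈ Finset.univ.filter (fun j => some j ∈ S), a j ∧
      min (a i) (b i) ≤ α * β := by
  classical
  set K := Finset.univ.filter (fun j : Fin m => some j ∈ S) with hK
  have hsub : S ⊆ Finset.insertNone K := by
    intro x hx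
    rcases x with _ | j
    · simp
    · simp [hK, hx]
  have hbi : ∀ y, δ (some i) y ∣ a i := fun y => hrow i ▸ Finset.dvd_prod_of_mem _ (Finset.mem_univ y)
  have hci : ∀ y, δ y (some i) ∣ b i := fun y => hcol i ▸
    Finset.dvd_prod_of_mem (fun y => δ y (some i)) (Finset.mem_univ y)
  have h11 : δ (some i) (some i) = 1 :=
    Nat.eq_one_of_dvd_coprimes (hcop i) (hbi _) (hci _)
  have hloc := cut_local (fun x y => δ x y * δ y x) (fun x y => mul_comm _ _)
    (fun x y => Nat.mul_pos (hpos _ _) (hpos _ _)) S hS (some i) hi (by simp [h11])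
  rw [Finset.prod_mul_distrib, Finset.prod_mul_distrib, hrow i, hcol i] at hloc
  refine ⟨∏ y ∈ S, δ (some i) y, ∏ y ∈ S, δ y (some i), ?_, ?_, ?_, ?_, ?_⟩
  · rw [← hrow i]; exact Finset.prod_dvd_prod_of_subset _ _ _ (Finset.subset_univ _)
  · rw [← hcol i]; exact Finset.prod_dvd_prod_of_subset _ _ _ (Finset.subset_univ _)
  · refine (Finset.prod_dvd_prod_of_subset _ _ _ hsub).trans ?_
    rw [Finset.prod_insertNone]
    apply Nat.mul_dvd_mul
    · rw [← hcol0]; exact Finset.dvd_prod_of_mem (fun x => δ x none) (Finset.mem_univ _)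
    · apply Finset.prod_dvd_prod_of_dvd
      intro j _
      rw [← hcol j]; exact Finset.dvd_prod_of_mem (fun x => δ x (some j)) (Finset.mem_univ _)
  · refine (Finset.prod_dvd_prod_of_subset _ _ _ hsub).trans ?_
    rw [Finset.prod_insertNone]
    apply Nat.mul_dvd_mul
    · rw [← hrow0]; exact Finset.dvd_prod_of_mem (fun x => δ none x) (Finset.mem_univ _)
    · apply Finset.prod_dvd_prod_of_dvd
      intro j _
      rw [← hrow j]; exact Finset.dvd_prod_of_mem (fun x => δ (some j) x) (Finset.mem_univ _)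
  · have h1 : (min (a i) (b i)) ^ 2 ≤ ((∏ y ∈ S, δ (some i) y) * ∏ y ∈ S, δ y (some i)) ^ 2 := by
      refine le_trans ?_ hloc
      rw [sq]
      exact Nat.mul_le_mul (min_le_left _ _) (min_le_right _ _)
    exact (Nat.pow_le_pow_iff_left (by norm_num)).1 h1

theorem arith_cut (a b : Fin m → ℕ) (c c' H : ℕ) (ha : ∀ i, 0 < a i) (hb : ∀ i, 0 < b i)
    (hc : 0 < c) (hc' : 0 < c') (h : c * ∏ i, a i = c' * ∏ i, b i)
    (hH : ∀ i, Nat.gcd (a i) (b i) ∣ H) :
    ∃ K : Finset (Fin m), 2 * K.card ≤ m ∧ ∀ i ∉ K, ∃ A B : ℕ, A ∣ a i ∧ B ∣ b i ∧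
      A ∣ H * (c' * ∏ j ∈ K, b j) ∧ B ∣ H * (c * ∏ j ∈ K, a j) ∧
      min (a i) (b i) ≤ Nat.lcm A B := by
  classical
  set g : Fin m → ℕ := fun i => Nat.gcd (a i) (b i) with hg
  have hgpos : ∀ i, 0 < g i := fun i => Nat.gcd_pos_of_pos_left _ (ha i)
  set a' : Fin m → ℕ := fun i => a i / g i with ha'
  set b' : Fin m → ℕ := fun i => b i / g i with hb'
  have haa : ∀ i, g i * a' i = a i := fun i => Nat.mul_div_cancel' (Nat.gcd_dvd_left _ _)
  have hbb : ∀ i, g i * b' i = b i := fun i => Nat.mul_div_cancel' (Nat.gcd_dvd_right _ _)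
  have hcop : ∀ i, Nat.Coprime (a' i) (b' i) := fun i => Nat.coprime_div_gcd_div_gcd (hgpos i)
  have ha'pos : ∀ i, 0 < a' i := fun i => Nat.pos_of_ne_zero fun h0 => by
    have := haa i; rw [h0, mul_zero] at this; exact (ha i).ne this
  have hb'pos : ∀ i, 0 < b' i := fun i => Nat.pos_of_ne_zero fun h0 => by
    have := hbb i; rw [h0, mul_zero] at this; exact (hb i).ne this
  have heq : c * ∏ i, a' i = c' * ∏ i, b' i := by
    have hgp : 0 < ∏ i, g i := Finset.prod_pos fun i _ => hgpos i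
    apply Nat.eq_of_mul_eq_mul_left hgp
    calc (∏ i, g i) * (c * ∏ i, a' i) = c * ((∏ i, g i) * ∏ i, a' i) := by ring
      _ = c * ∏ i, a i := by
        rw [← Finset.prod_mul_distrib]
        simp only [haa]
      _ = c' * ∏ i, b i := h
      _ = c' * ((∏ i, g i) * ∏ i, b' i) := by
        rw [← Finset.prod_mul_distrib]
        simp only [hbb]
      _ = _ := by ring
  obtain ⟨δ, hd1, hd2⟩ := exists_refine (Finset.univ : Finset (Option (Fin m)))
    (Finset.univ : Finset (Option (Fin m))) (fun x => x.elim c a') (fun x => x.elim c' b')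
    (by
      intro j _
      rcases j with _ | j
      · exact hc'
      · exact hb'pos j)
    (by
      rw [Fintype.prod_option, Fintype.prod_option]
      exact heq)
  have hrow : ∀ i, ∏ y, δ (some i) y = a' i := fun i => hd1 (some i) (Finset.mem_univ _)
  have hcol : ∀ i, ∏ x, δ x (some i) = b' i := fun i => hd2 (some i) (Finset.mem_univ _)
  have hrow0 : ∏ y, δ none y = c := hd1 none (Finset.mem_univ _)
  have hcol0 : ∏ x, δ x none = c' := hd2 none (Finset.mem_univ _)
  have hpos : ∀ x y, 0 < δ x y := by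
    intro x y
    apply Nat.pos_of_dvd_of_pos (n := x.elim c a')
    · rw [← hd1 x (Finset.mem_univ _)]; exact Finset.dvd_prod_of_mem _ (Finset.mem_univ y)
    · rcases x with _ | i
      · exact hc
      · exact ha'pos i
  obtain ⟨S, -, hS⟩ := Finset.exists_max_image (Finset.univ : Finset (Finset (Option (Fin m))))
    (cutW fun x y => δ x y * δ y x) ⟨∅, Finset.mem_univ _⟩
  have hS1 : ∀ S', cutW (fun x y => δ x y * δ y x) S' ≤ cutW (fun x y => δ x y * δ y x) S :=
    fun S' => hS S' (Finset.mem_univ _)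
  have hS2 : ∀ S', cutW (fun x y => δ x y * δ y x) S' ≤ cutW (fun x y => δ x y * δ y x) Sᶜ := by
    intro S'
    rw [cutW_compl _ (fun x y => mul_comm _ _)]
    exact hS1 S'
  -- the conclusion from one side
  have main : ∀ T : Finset (Option (Fin m)),
      (∀ S', cutW (fun x y => δ x y * δ y x) S' ≤ cutW (fun x y => δ x y * δ y x) T) →
      ∀ i ∉ Finset.univ.filter (fun j : Fin m => some j ∈ T), ∃ A B : ℕ, A ∣ a i ∧ B ∣ b i ∧
      A ∣ H * (c' * ∏ j ∈ Finset.univ.filter (fun j : Fin m => some j ∈ T), b j) ∧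
      B ∣ H * (c * ∏ j ∈ Finset.univ.filter (fun j : Fin m => some j ∈ T), a j) ∧
      min (a i) (b i) ≤ Nat.lcm A B := by
    intro T hT i hi
    have hiT : some i ∉ T := by simpa using hi
    obtain ⟨α, β, h1, h2, h3, h4, h5⟩ := arith_side a' b' c c' δ hcop hpos hrow hcol hrow0 hcol0
      T hT i hiT
    refine ⟨g i * α, g i * β, ?_, ?_, ?_, ?_, ?_⟩
    · rw [← haa i]; exact Nat.mul_dvd_mul_left _ h1
    · rw [← hbb i]; exact Nat.mul_dvd_mul_left _ h2
    · apply Nat.mul_dvd_mul (hH i)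
      refine h3.trans (Nat.mul_dvd_mul_left _ ?_)
      apply Finset.prod_dvd_prod_of_dvd
      intro j _
      exact ⟨g j, by rw [mul_comm]; exact (hbb j).symm⟩
    · apply Nat.mul_dvd_mul (hH i)
      refine h4.trans (Nat.mul_dvd_mul_left _ ?_)
      apply Finset.prod_dvd_prod_of_dvd
      intro j _
      exact ⟨g j, by rw [mul_comm]; exact (haa j).symm⟩
    · rw [Nat.lcm_mul_left, (Nat.Coprime.coprime_dvd_left h1
        (Nat.Coprime.coprime_dvd_right h2 (hcop i))).lcm_eq_mul, ← haa i, ← hbb i]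
      rw [Nat.mul_min_mul_left]
      exact Nat.mul_le_mul_left _ h5
  by_cases hcard : 2 * (Finset.univ.filter (fun j : Fin m => some j ∈ S)).card ≤ m
  · exact ⟨_, hcard, main S hS1⟩
  · refine ⟨_, ?_, main Sᶜ hS2⟩
    have h1 : (Finset.univ.filter (fun j : Fin m => some j ∈ S)).card +
        (Finset.univ.filter (fun j : Fin m => ¬ some j ∈ S)).card = m := by
      rw [Finset.card_filter_add_card_filter_not]
      simp
    simp only [Finset.mem_compl]
    omega

end arith

end Pool.Agent.H30.Vino
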