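import Mathlib
import Pool.Agent.H30.Vino.Divisor
import Pool.Agent.H30.Vino.Refine

/-!
The base case: a multiplicative equation between two shifts of an integer vector has at most
`C N^(m/2+1)` solutions.
-/

set_option autoImplicit false

namespace Pool.Agent.H30.Vino

/-- Distance of two natural numbers. -/
def ds (v y : ℕ) : ℕ := ((v : ℤ) - y).natAbs

lemma ds_pos {v y : ℕ} (h : v ≠ y) : 0 < ds v y := by
  unfold ds; omega

lemma ds_le {N v y : ℕ} (hv : v ∈ Finset.Icc 1 N) (hy : y ∈ Finset.Icc 1 N) : ds v y ≤ N := by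
  rw [Finset.mem_Icc] at hv hy
  unfold ds; omega

lemma card_le_three (S : Finset ℕ) (z : ℤ) (L : ℕ) (hL : 0 < L)
    (h1 : ∀ v ∈ S, z ≤ (v : ℤ) ∧ (v : ℤ) ≤ z + 2 * L)
    (h2 : ∀ v ∈ S, ∀ v' ∈ S, (L : ℤ) ∣ (v : ℤ) - v') : S.card ≤ 3 := by
  have hL' : (0 : ℤ) < L := by exact_mod_cast hL
  calc S.card ≤ (Finset.range 3).card := by
        apply Finset.card_le_card_of_injOn (fun v : ℕ => (((v : ℤ) - z) / L).toNat)
        · intro v hv
          obtain ⟨h3, h4⟩ := h1 v hv
          have h5 : ((v : ℤ) - z) / L ≤ 2 := by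
            apply Int.ediv_le_of_le_mul hL'
            linarith
          have h6 : 0 ≤ ((v : ℤ) - z) / L := Int.ediv_nonneg (by linarith) hL'.le
          simp only [Finset.coe_range, Set.mem_Iio]
          omega
        · intro v hv v' hv' h
          simp only at h
          have h3 := h1 v hv
          have h4 := h1 v' hv'
          have h5 : 0 ≤ ((v : ℤ) - z) / L := Int.ediv_nonneg (by linarith) hL'.le
          have h6 : 0 ≤ ((v' : ℤ) - z) / L := Int.ediv_nonneg (by linarith) hL'.le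
          have h7 : ((v : ℤ) - z) / L = ((v' : ℤ) - z) / L := by omega
          have h8 : ((v : ℤ) - z) % L = ((v' : ℤ) - z) % L := by
            apply Int.emod_eq_emod_iff_emod_sub_eq_zero.2
            apply Int.emod_eq_zero_of_dvd
            have := h2 v hv v' hv'
            have h9 : (v : ℤ) - z - (v' - z) = v - v' := by ring
            rwa [h9]
          have h10 := Int.mul_ediv_add_emod ((v : ℤ) - z) L
          have h11 := Int.mul_ediv_add_emod ((v' : ℤ) - z) L
          rw [h7, h8] at h10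
          have : (v : ℤ) = v' := by linarith
          exact_mod_cast this
    _ = 3 := by simp

/-- Candidates for a coordinate, given divisors. -/
def candAB (N y₁ y₂ A B : ℕ) : Finset ℕ :=
  (Finset.Icc 1 N).filter fun v => A ∣ ds v y₁ ∧ B ∣ ds v y₂ ∧ min (ds v y₁) (ds v y₂) ≤ Nat.lcm A B

lemma card_candAB (N y₁ y₂ A B : ℕ) (hA : 0 < A) (hB : 0 < B) :
    (candAB N y₁ y₂ A B).card ≤ 6 := by
  have hL : 0 < Nat.lcm A B := Nat.lcm_pos hA hB
  have hcong : ∀ v v' : ℕ, A ∣ ds v y₁ → B ∣ ds v y₂ → A ∣ ds v' y₁ → B ∣ ds v' y₂ →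
      ((Nat.lcm A B : ℕ) : ℤ) ∣ (v : ℤ) - v' := by
    intro v v' h1 h2 h3 h4
    have h1' : (A : ℤ) ∣ (v : ℤ) - y₁ := Int.natCast_dvd.2 h1
    have h2' : (B : ℤ) ∣ (v : ℤ) - y₂ := Int.natCast_dvd.2 h2
    have h3' : (A : ℤ) ∣ (v' : ℤ) - y₁ := Int.natCast_dvd.2 h3
    have h4' : (B : ℤ) ∣ (v' : ℤ) - y₂ := Int.natCast_dvd.2 h4
    have h5 : (A : ℤ) ∣ (v : ℤ) - v' := by
      have := dvd_sub h1' h3'
      have e : (v : ℤ) - y₁ - (v' - y₁) = v - v' := by ring
      rwa [e] at this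
    have h6 : (B : ℤ) ∣ (v : ℤ) - v' := by
      have := dvd_sub h2' h4'
      have e : (v : ℤ) - y₂ - (v' - y₂) = v - v' := by ring
      rwa [e] at this
    rw [Int.natCast_dvd] at h5 h6 ⊢
    exact Nat.lcm_dvd h5 h6
  have hsub : candAB N y₁ y₂ A B ⊆
      ((Finset.Icc 1 N).filter fun v => A ∣ ds v y₁ ∧ B ∣ ds v y₂ ∧ ds v y₁ ≤ Nat.lcm A B) ∪
      ((Finset.Icc 1 N).filter fun v => A ∣ ds v y₁ ∧ B ∣ ds v y₂ ∧ ds v y₂ ≤ Nat.lcm A B) := by
    intro v hv
    simp only [candAB, Finset.mem_filter, Finset.mem_union] at hv ⊢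
    obtain ⟨h1, h2, h3, h4⟩ := hv
    rcases min_le_iff.1 h4 with h | h
    · exact Or.inl ⟨h1, h2, h3, h⟩
    · exact Or.inr ⟨h1, h2, h3, h⟩
  refine (Finset.card_le_card hsub).trans ((Finset.card_union_le _ _).trans ?_)
  have e1 : ((Finset.Icc 1 N).filter fun v => A ∣ ds v y₁ ∧ B ∣ ds v y₂ ∧
      ds v y₁ ≤ Nat.lcm A B).card ≤ 3 := by
    apply card_le_three _ ((y₁ : ℤ) - (Nat.lcm A B : ℕ)) (Nat.lcm A B) hL
    · intro v hv
      rw [Finset.mem_filter] at hv
      obtain ⟨-, -, -, h⟩ := hv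
      unfold ds at h
      omega
    · intro v hv v' hv'
      simp only [Finset.mem_filter] at hv hv'
      exact hcong v v' hv.2.1 hv.2.2.1 hv'.2.1 hv'.2.2.1
  have e2 : ((Finset.Icc 1 N).filter fun v => A ∣ ds v y₁ ∧ B ∣ ds v y₂ ∧
      ds v y₂ ≤ Nat.lcm A B).card ≤ 3 := by
    apply card_le_three _ ((y₂ : ℤ) - (Nat.lcm A B : ℕ)) (Nat.lcm A B) hL
    · intro v hv
      rw [Finset.mem_filter] at hv
      obtain ⟨-, -, -, h⟩ := hv
      unfold ds at h
      omega
    · intro v hv v' hv'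
      simp only [Finset.mem_filter] at hv hv'
      exact hcong v v' hv.2.1 hv.2.2.1 hv'.2.1 hv'.2.2.1
  omega

/-- Candidates for a coordinate. -/
def cand (N y₁ y₂ D₁ D₂ : ℕ) : Finset ℕ :=
  (D₁.divisors ×ˢ D₂.divisors).biUnion fun q => candAB N y₁ y₂ q.1 q.2

lemma card_cand (N y₁ y₂ D₁ D₂ : ℕ) :
    (cand N y₁ y₂ D₁ D₂).card ≤ 6 * (D₁.divisors.card * D₂.divisors.card) := by
  unfold cand
  refine (Finset.card_biUnion_le_card_mul _ _ 6 ?_).trans ?_
  · intro q hq
    rw [Finset.mem_product] at hq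
    exact card_candAB _ _ _ _ _ (Nat.pos_of_mem_divisors hq.1) (Nat.pos_of_mem_divisors hq.2)
  · rw [Finset.card_product, mul_comm]

/-- The vectors in the box satisfying the two-shift multiplicative equation. -/
def baseSet (m N y₁ y₂ c c' : ℕ) : Finset (Fin m → ℕ) :=
  (Fintype.piFinset fun _ : Fin m => Finset.Icc 1 N).filter fun v =>
    (∀ i, v i ≠ y₁ ∧ v i ≠ y₂) ∧ c * ∏ i, ds (v i) y₁ = c' * ∏ i, ds (v i) y₂

theorem card_baseSet (m σ : ℕ) (hm : 2 * σ + 1 ≤ m) :
    ∃ C : ℕ, ∀ N y₁ y₂ c c' : ℕ, 1 ≤ N → y₁ ∈ Finset.Icc 1 N → y₂ ∈ Finset.Icc 1 N → y₁ ≠ y₂ →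
      0 < c → 0 < c' → c ≤ N ^ m → c' ≤ N ^ m →
      (baseSet m N y₁ y₂ c c').card * N ^ σ ≤ C * N ^ m := by
  classical
  obtain ⟨C₁, hC₁, hdiv⟩ := card_divisors_pow_le (2 * m * (2 * m + 1))
  refine ⟨2 ^ m * (6 ^ m * C₁), ?_⟩
  intro N y₁ y₂ c c' hN hy₁ hy₂ hne hc hc' hcN hcN'
  set H := ds y₁ y₂ with hH
  have hHpos : 0 < H := ds_pos hne
  have hHN : H ≤ N := ds_le hy₁ hy₂
  set D₁ : Finset (Fin m) → (Fin m → ℕ) → ℕ := fun K u => H * (c' * ∏ j ∈ K, ds (u j) y₂) with hD₁
  set D₂ : Finset (Fin m) → (Fin m → ℕ) → ℕ := fun K u => H * (c * ∏ j ∈ K, ds (u j) y₁) with hD₂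
  set KK : Finset (Finset (Fin m)) := Finset.univ.filter (fun K => 2 * K.card ≤ m) with hKK
  set UU : Finset (Fin m) → Finset (Fin m → ℕ) := fun K =>
    Fintype.piFinset fun i => if i ∈ K then Finset.Icc 1 N else {1} with hUU
  set WW : Finset (Fin m) → (Fin m → ℕ) → Finset (Fin m → ℕ) := fun K u =>
    Fintype.piFinset fun i => if i ∈ K then {u i} else cand N y₁ y₂ (D₁ K u) (D₂ K u) with hWW
  have hsub : baseSet m N y₁ y₂ c c' ⊆ KK.biUnion fun K => (UU K).biUnion fun u => WW K u := by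
    intro v hv
    simp only [baseSet, Finset.mem_filter, Fintype.mem_piFinset] at hv
    obtain ⟨hbox, hadm, heq⟩ := hv
    obtain ⟨K, hK1, hK2⟩ := arith_cut (fun i => ds (v i) y₁) (fun i => ds (v i) y₂) c c' H
      (fun i => ds_pos (hadm i).1) (fun i => ds_pos (hadm i).2) hc hc' heq (by
        intro i
        have h1 : ((Nat.gcd (ds (v i) y₁) (ds (v i) y₂) : ℕ) : ℤ) ∣ (v i : ℤ) - y₁ :=
          Int.natCast_dvd.2 (Nat.gcd_dvd_left _ _)
        have h2 : ((Nat.gcd (ds (v i) y₁) (ds (v i) y₂) : ℕ) : ℤ) ∣ (v i : ℤ) - y₂ :=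
          Int.natCast_dvd.2 (Nat.gcd_dvd_right _ _)
        have h3 := dvd_sub h2 h1
        have e : (v i : ℤ) - y₂ - (v i - y₁) = y₁ - y₂ := by ring
        rw [e] at h3
        exact Int.natCast_dvd.1 h3)
    rw [Finset.mem_biUnion]
    refine ⟨K, by simp [hKK, hK1], ?_⟩
    rw [Finset.mem_biUnion]
    refine ⟨fun i => if i ∈ K then v i else 1, ?_, ?_⟩
    · simp only [hUU, Fintype.mem_piFinset]
      intro i
      split_ifs with h
      · exact hbox i
      · simp
    · have hprod : ∀ y : ℕ, ∏ j ∈ K, ds (if j ∈ K then v j else 1) y = ∏ j ∈ K, ds (v j) y := by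
        intro y
        apply Finset.prod_congr rfl
        intro j hj
        rw [if_pos hj]
      have e1 : D₁ K (fun i => if i ∈ K then v i else 1) = H * (c' * ∏ j ∈ K, ds (v j) y₂) := by
        simp only [hD₁]; rw [hprod]
      have e2 : D₂ K (fun i => if i ∈ K then v i else 1) = H * (c * ∏ j ∈ K, ds (v j) y₁) := by
        simp only [hD₂]; rw [hprod]
      simp only [hWW, Fintype.mem_piFinset]
      intro i
      by_cases h : i ∈ K
      · simp [h]
      · rw [if_neg h, e1, e2]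
        obtain ⟨A, B, hA, hB, hA1, hB1, hmin⟩ := hK2 i h
        simp only [cand, Finset.mem_biUnion, Finset.mem_product, Prod.exists, Nat.mem_divisors]
        refine ⟨A, B, ⟨⟨hA1, ?_⟩, hB1, ?_⟩, ?_⟩
        · exact (Nat.mul_pos hHpos (Nat.mul_pos hc'
            (Finset.prod_pos fun j _ => ds_pos (hadm j).2))).ne'
        · exact (Nat.mul_pos hHpos (Nat.mul_pos hc
            (Finset.prod_pos fun j _ => ds_pos (hadm j).1))).ne'
        · simp only [candAB, Finset.mem_filter]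
          exact ⟨hbox i, hA, hB, hmin⟩
  -- divisor bound
  have hdivN : ∀ D : ℕ, D ≤ N ^ (2 * m + 1) → D.divisors.card ^ (2 * m) ≤ C₁ * N := by
    intro D hD
    rcases Nat.eq_zero_or_pos D with rfl | hDpos
    · simp only [Nat.divisors_zero, Finset.card_empty]
      rw [zero_pow (by omega)]
      exact Nat.zero_le _
    have h1 := hdiv D hDpos
    rw [pow_mul] at h1
    have h2 : (D.divisors.card ^ (2 * m)) ^ (2 * m + 1) ≤ (C₁ * N) ^ (2 * m + 1) := by
      refine h1.trans ?_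
      rw [mul_pow]
      exact Nat.mul_le_mul (Nat.le_self_pow (by omega) _) hD
    exact (Nat.pow_le_pow_iff_left (by omega)).1 h2
  have hWcard : ∀ K u, u ∈ UU K → (WW K u).card ≤ 6 ^ m * (C₁ * N) := by
    intro K u hu
    have hub : ∀ j ∈ K, u j ∈ Finset.Icc 1 N := by
      intro j hj
      simp only [hUU, Fintype.mem_piFinset] at hu
      have := hu j
      rwa [if_pos hj] at this
    have hprodle : ∀ y : ℕ, y ∈ Finset.Icc 1 N → ∏ j ∈ K, ds (u j) y ≤ N ^ m := by
      intro y hy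
      calc ∏ j ∈ K, ds (u j) y ≤ ∏ j ∈ K, N := Finset.prod_le_prod' fun j hj => ds_le (hub j hj) hy
        _ = N ^ K.card := by rw [Finset.prod_const]
        _ ≤ N ^ m := Nat.pow_le_pow_right hN (by simpa using Finset.card_le_univ K)
    have hD₁le : D₁ K u ≤ N ^ (2 * m + 1) := by
      calc D₁ K u ≤ N * (N ^ m * N ^ m) :=
            Nat.mul_le_mul hHN (Nat.mul_le_mul hcN' (hprodle _ hy₂))
        _ = N ^ (2 * m + 1) := by ring
    have hD₂le : D₂ K u ≤ N ^ (2 * m + 1) := by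
      calc D₂ K u ≤ N * (N ^ m * N ^ m) :=
            Nat.mul_le_mul hHN (Nat.mul_le_mul hcN (hprodle _ hy₁))
        _ = N ^ (2 * m + 1) := by ring
    set M := max 1 (max (D₁ K u).divisors.card (D₂ K u).divisors.card) with hM
    have hM1 : 1 ≤ M := le_max_left _ _
    have hMpow : M ^ (2 * m) ≤ C₁ * N := by
      have : M = 1 ∨ M = (D₁ K u).divisors.card ∨ M = (D₂ K u).divisors.card := by
        rcases max_choice 1 (max (D₁ K u).divisors.card (D₂ K u).divisors.card) with h | h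
        · exact Or.inl (hM.trans h)
        · rcases max_choice (D₁ K u).divisors.card (D₂ K u).divisors.card with h' | h'
          · exact Or.inr (Or.inl (hM.trans (h.trans h')))
          · exact Or.inr (Or.inr (hM.trans (h.trans h')))
      rcases this with h | h | h
      · rw [h, one_pow]; exact Nat.mul_pos hC₁ hN
      · rw [h]; exact hdivN _ hD₁le
      · rw [h]; exact hdivN _ hD₂le
    have hcandle : (cand N y₁ y₂ (D₁ K u) (D₂ K u)).card ≤ 6 * M ^ 2 := by
      refine (card_cand _ _ _ _ _).trans (Nat.mul_le_mul_left _ ?_)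
      rw [sq]
      exact Nat.mul_le_mul ((le_max_left _ _).trans (le_max_right _ _))
        ((le_max_right _ _).trans (le_max_right _ _))
    simp only [hWW, Fintype.card_piFinset]
    calc ∏ i, (if i ∈ K then {u i} else cand N y₁ y₂ (D₁ K u) (D₂ K u)).card
        ≤ ∏ i : Fin m, 6 * M ^ 2 := by
          apply Finset.prod_le_prod'
          intro i _
          split_ifs with h
          · rw [Finset.card_singleton]
            have : 1 ≤ M ^ 2 := Nat.one_le_pow _ _ hM1
            omega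
          · exact hcandle
      _ = 6 ^ m * M ^ (2 * m) := by
          rw [Finset.prod_const, Finset.card_univ, Fintype.card_fin, mul_pow, pow_mul]
      _ ≤ 6 ^ m * (C₁ * N) := Nat.mul_le_mul_left _ hMpow
  have hUcard : ∀ K ∈ KK, (UU K).card ≤ N ^ (m / 2) := by
    intro K hK
    simp only [hKK, Finset.mem_filter, Finset.mem_univ, true_and] at hK
    simp only [hUU, Fintype.card_piFinset]
    have : ∏ i, (if i ∈ K then Finset.Icc 1 N else ({1} : Finset ℕ)).card =
        ∏ i, (if i ∈ K then N else 1) := by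
      apply Finset.prod_congr rfl
      intro i _
      split_ifs <;> simp
    rw [this, Finset.prod_ite, Finset.prod_const, Finset.prod_const, one_pow, mul_one]
    apply Nat.pow_le_pow_right hN
    have : (Finset.univ.filter (fun i => i ∈ K)) = K := by ext; simp
    rw [this]
    omega
  have hcard : (baseSet m N y₁ y₂ c c').card ≤ 2 ^ m * (N ^ (m / 2) * (6 ^ m * (C₁ * N))) := by
    refine (Finset.card_le_card hsub).trans ?_
    refine (Finset.card_biUnion_le_card_mul _ _ (N ^ (m / 2) * (6 ^ m * (C₁ * N))) ?_).trans ?_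
    · intro K hK
      refine (Finset.card_biUnion_le_card_mul _ _ (6 ^ m * (C₁ * N)) (hWcard K)).trans ?_
      exact Nat.mul_le_mul_right _ (hUcard K hK)
    · apply Nat.mul_le_mul_right
      calc KK.card ≤ (Finset.univ : Finset (Finset (Fin m))).card := Finset.card_filter_le _ _
        _ = 2 ^ m := by simp
  calc (baseSet m N y₁ y₂ c c').card * N ^ σ
      ≤ 2 ^ m * (N ^ (m / 2) * (6 ^ m * (C₁ * N))) * N ^ σ := Nat.mul_le_mul_right _ hcard
    _ = 2 ^ m * (6 ^ m * C₁) * N ^ (m / 2 + 1 + σ) := by ring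
    _ ≤ 2 ^ m * (6 ^ m * C₁) * N ^ m := by
        apply Nat.mul_le_mul_left
        exact Nat.pow_le_pow_right hN (by omega)

end Pool.Agent.H30.Vino
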