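import Mathlib

/-!
Equal power sums of degree `1..k` force the difference of the two monic polynomials to have
degree less than `s - k`.
-/

set_option autoImplicit false

open Polynomial

namespace Pool.Agent.H30.Vino

/-- The monic polynomial with roots `x i`. -/
noncomputable def Pp {s : ℕ} (x : Fin s → ℕ) : ℚ[X] := ∏ i, (X - C (x i : ℚ))

/-- Equal power sums of degrees `1..k`. -/
def SamePow {s : ℕ} (k : ℕ) (x y : Fin s → ℕ) : Prop :=
  ∀ j : ℕ, 1 ≤ j → j ≤ k → ∑ i, x i ^ j = ∑ i, y i ^ j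

lemma aeval_esymm_congr {s : ℕ} (k : ℕ) (x y : Fin s → ℕ) (h : SamePow k x y) :
    ∀ j : ℕ, j ≤ k → MvPolynomial.aeval (fun i => (x i : ℚ)) (MvPolynomial.esymm (Fin s) ℚ j) =
      MvPolynomial.aeval (fun i => (y i : ℚ)) (MvPolynomial.esymm (Fin s) ℚ j) := by
  intro j
  induction j using Nat.strong_induction_on with
  | _ j ih =>
    intro hj
    rcases Nat.eq_zero_or_pos j with rfl | hpos
    · simp [MvPolynomial.esymm_zero]
    have key : ∀ z : Fin s → ℕ, (j : ℚ) *
        MvPolynomial.aeval (fun i => (z i : ℚ)) (MvPolynomial.esymm (Fin s) ℚ j) =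
        (-1) ^ (j + 1) * ∑ a ∈ Finset.HasAntidiagonal.antidiagonal j with a.1 < j, (-1) ^ a.1 *
          MvPolynomial.aeval (fun i => (z i : ℚ)) (MvPolynomial.esymm (Fin s) ℚ a.1) *
          ∑ i, (z i : ℚ) ^ a.2 := by
      intro z
      have := congrArg (MvPolynomial.aeval (fun i => (z i : ℚ)))
        (MvPolynomial.mul_esymm_eq_sum (Fin s) ℚ j)
      simpa [MvPolynomial.psum, map_mul, map_sum, map_pow] using this
    have hj0 : (j : ℚ) ≠ 0 := by exact_mod_cast hpos.ne'
    apply mul_left_cancel₀ hj0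
    rw [key x, key y]
    congr 1
    apply Finset.sum_congr rfl
    intro a ha
    rw [Finset.mem_filter, Finset.HasAntidiagonal.mem_antidiagonal] at ha
    obtain ⟨ha1, ha2⟩ := ha
    rw [ih a.1 ha2 (by omega)]
    congr 1
    have := h a.2 (by omega) (by omega)
    exact_mod_cast this

lemma Pp_coeff {s : ℕ} (x : Fin s → ℕ) (n : ℕ) (hn : n ≤ s) :
    (Pp x).coeff n = (-1) ^ (s - n) *
      MvPolynomial.aeval (fun i => (x i : ℚ)) (MvPolynomial.esymm (Fin s) ℚ (s - n)) := by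
  have h1 : Pp x = ((Finset.univ.val.map fun i => (x i : ℚ)).map fun t => X - C t).prod := by
    rw [Multiset.map_map]
    rfl
  have h2 : Multiset.card (Finset.univ.val.map fun i => (x i : ℚ)) = s := by simp
  rw [h1, Multiset.prod_X_sub_C_coeff _ (by rw [h2]; exact hn), h2,
    MvPolynomial.aeval_esymm_eq_multiset_esymm]

lemma Pp_natDegree {s : ℕ} (x : Fin s → ℕ) : (Pp x).natDegree = s := by
  unfold Pp
  rw [natDegree_prod_of_monic _ _ (fun i _ => monic_X_sub_C _)]
  simp only [natDegree_X_sub_C, Finset.sum_const, Finset.card_univ, Fintype.card_fin,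
    smul_eq_mul, mul_one]

lemma Pp_monic {s : ℕ} (x : Fin s → ℕ) : (Pp x).Monic :=
  monic_prod_of_monic _ _ (fun _ _ => monic_X_sub_C _)

lemma Pp_ne_zero {s : ℕ} (x : Fin s → ℕ) : Pp x ≠ 0 := (Pp_monic x).ne_zero

theorem degree_sub_lt {s : ℕ} (k : ℕ) (x y : Fin s → ℕ) (h : SamePow k x y) :
    (Pp x - Pp y).degree < ((s - k : ℕ) : WithBot ℕ) := by
  rw [degree_lt_iff_coeff_zero]
  intro n hn
  rw [coeff_sub]
  by_cases hns : n ≤ s
  · rw [Pp_coeff x n hns, Pp_coeff y n hns, aeval_esymm_congr k x y h (s - n) (by omega), sub_self]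
  · rw [coeff_eq_zero_of_natDegree_lt (by rw [Pp_natDegree]; omega),
      coeff_eq_zero_of_natDegree_lt (by rw [Pp_natDegree]; omega), sub_self]

lemma Pp_eval {s : ℕ} (x : Fin s → ℕ) (a : ℚ) : (Pp x).eval a = ∏ i, (a - x i) := by
  unfold Pp
  rw [eval_prod]
  simp

lemma Pp_eval_eq_zero {s : ℕ} (x : Fin s → ℕ) (a : ℕ) :
    (Pp x).eval (a : ℚ) = 0 ↔ ∃ i, x i = a := by
  rw [Pp_eval, Finset.prod_eq_zero_iff]
  simp only [Finset.mem_univ, true_and, sub_eq_zero, Nat.cast_inj, eq_comm]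

end Pool.Agent.H30.Vino
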