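import Mathlib
import Pool.Agent.H30.Vino.Newton

/-!
Equality of the monic polynomials means that the vectors are permutations of each other.
-/

set_option autoImplicit false

open Polynomial

namespace Pool.Agent.H30.Vino

theorem exists_perm_of_Pp_eq {s : ℕ} (x y : Fin s → ℕ) (h : Pp x = Pp y) :
    ∃ τ : Equiv.Perm (Fin s), ∀ i, x (τ i) = y i := by
  classical
  have hroots : ∀ z : Fin s → ℕ, (Pp z).roots = Finset.univ.val.map fun i => (z i : ℚ) := by
    intro z
    have h1 : Pp z = ((Finset.univ.val.map fun i => (z i : ℚ)).map fun t => X - C t).prod := by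
      rw [Multiset.map_map]
      rfl
    rw [h1, roots_multiset_prod_X_sub_C]
  have hcard : ∀ a : ℕ, Fintype.card {i // y i = a} = Fintype.card {i // x i = a} := by
    intro a
    have h2 := congrArg (Multiset.count (a : ℚ)) (congrArg Polynomial.roots h)
    rw [hroots, hroots, Multiset.count_map, Multiset.count_map] at h2
    rw [Fintype.card_subtype, Fintype.card_subtype]
    have e : ∀ z : Fin s → ℕ, (Finset.univ.filter fun i => z i = a).card =
        Multiset.card (Multiset.filter (fun i => (a : ℚ) = (z i : ℚ)) Finset.univ.val) := by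
      intro z
      rw [Finset.card_def, Finset.filter_val]
      congr 1
      apply Multiset.filter_congr
      intro i _
      rw [Nat.cast_inj, eq_comm]
    rw [e x, e y, h2]
  refine ⟨Equiv.ofFiberEquiv (f := y) (g := x) (fun a => Fintype.equivOfCardEq (hcard a)), ?_⟩
  intro i
  exact Equiv.ofFiberEquiv_map _ i

/-- The number of vectors taking values in the set of values of a fixed vector. -/
lemma card_values_le {s : ℕ} (A : Finset (Fin s → ℕ)) (h : ∀ z ∈ A, ∀ z' ∈ A, Pp z = Pp z') :
    A.card ≤ s ^ s := by
  classical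
  rcases Finset.eq_empty_or_nonempty A with rfl | ⟨z0, hz0⟩
  · simp
  have hsub : A ⊆ Fintype.piFinset fun _ : Fin s => Finset.univ.image z0 := by
    intro z hz
    rw [Fintype.mem_piFinset]
    intro i
    have h1 : (Pp z0).eval (z i : ℚ) = 0 := by
      rw [h z0 hz0 z hz, Pp_eval_eq_zero]
      exact ⟨i, rfl⟩
    rw [Pp_eval_eq_zero] at h1
    obtain ⟨j, hj⟩ := h1
    rw [Finset.mem_image]
    exact ⟨j, Finset.mem_univ _, hj⟩
  refine (Finset.card_le_card hsub).trans ?_
  rw [Fintype.card_piFinset, Finset.prod_const, Finset.card_univ, Fintype.card_fin]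
  apply Nat.pow_le_pow_left
  calc (Finset.univ.image z0).card ≤ (Finset.univ : Finset (Fin s)).card := Finset.card_image_le
    _ = s := by simp

end Pool.Agent.H30.Vino
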