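import Mathlib
import Pool.Agent.H30.Vino.Base

/-!
The sets `Sol`: vectors `v` in a box whose products of shifts `prod (v i - y l)`, after fixed
scalings `lam l`, are interpolated at the points `y l` by a rational polynomial of small degree.
-/

set_option autoImplicit false

open Polynomial

namespace Pool.Agent.H30.Vino

/-- The product of the shifts `v i - y`. -/
def Zq {m : ℕ} (v : Fin m → ℕ) (y : ℕ) : ℚ := ∏ i, ((v i : ℚ) - y)

lemma abs_Zq {m : ℕ} (v : Fin m → ℕ) (y : ℕ) : |Zq v y| = ((∏ i, ds (v i) y : ℕ) : ℚ) := by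
  unfold Zq ds
  rw [Finset.abs_prod, Nat.cast_prod]
  apply Finset.prod_congr rfl
  intro i _
  rw [Nat.cast_natAbs]
  push_cast
  rfl

lemma Zq_ne_zero_iff {m : ℕ} (v : Fin m → ℕ) (y : ℕ) : Zq v y ≠ 0 ↔ ∀ i, v i ≠ y := by
  unfold Zq
  rw [Finset.prod_ne_zero_iff]
  simp only [Finset.mem_univ, forall_true_left, sub_ne_zero, ne_eq, Nat.cast_inj]

lemma Zq_append {m n : ℕ} (u : Fin m → ℕ) (w : Fin n → ℕ) (y : ℕ) :
    Zq (Fin.append u w) y = Zq u y * Zq w y := by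
  unfold Zq
  rw [Fin.prod_univ_add]
  simp

/-- Vectors in the box whose scaled shift products are interpolated by a polynomial of
degree less than `e`. -/
noncomputable def Sol (N e m r : ℕ) (y : Fin r → ℕ) (lam : Fin r → ℚ) : Finset (Fin m → ℕ) :=
  open Classical in
  (Fintype.piFinset fun _ : Fin m => Finset.Icc 1 N).filter fun v =>
    (∀ l, Zq v (y l) ≠ 0) ∧
      ∃ p : ℚ[X], p.degree < (e : WithBot ℕ) ∧ ∀ l, lam l * Zq v (y l) = p.eval (y l : ℚ)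

lemma mem_Sol {N e m r : ℕ} {y : Fin r → ℕ} {lam : Fin r → ℚ} {v : Fin m → ℕ} :
    v ∈ Sol N e m r y lam ↔ (∀ i, v i ∈ Finset.Icc 1 N) ∧ (∀ l, Zq v (y l) ≠ 0) ∧
      ∃ p : ℚ[X], p.degree < (e : WithBot ℕ) ∧ ∀ l, lam l * Zq v (y l) = p.eval (y l : ℚ) := by
  classical
  unfold Sol
  rw [Finset.mem_filter, Fintype.mem_piFinset]

/-- Uniform power saving `N^σ` for the sets `Sol`. -/
def Saves (e m σ r : ℕ) : Prop :=
  ∃ C : ℕ, ∀ N : ℕ, 1 ≤ N → ∀ y : Fin r → ℕ, Function.Injective y →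
    (∀ l, y l ∈ Finset.Icc 1 N) → ∀ lam : Fin r → ℚ, (∀ l, lam l ≠ 0) →
    (Sol N e m r y lam).card * N ^ σ ≤ C * N ^ m

lemma degree_lt_one_eval {p : ℚ[X]} (hp : p.degree < ((1 : ℕ) : WithBot ℕ)) (a b : ℚ) :
    p.eval a = p.eval b := by
  have h : p.degree ≤ 0 := by
    rcases eq_or_ne p 0 with rfl | h0
    · simp
    · rw [degree_eq_natDegree h0] at hp ⊢
      have : p.natDegree < 1 := by exact_mod_cast hp
      have h1 : p.natDegree = 0 := by omega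
      rw [h1]; rfl
  rw [eq_C_of_degree_le_zero h]
  simp

theorem saves_one (m σ r : ℕ) (hr : 2 ≤ r) (hm : 2 * σ + 1 ≤ m) : Saves 1 m σ r := by
  obtain ⟨C, hC⟩ := card_baseSet m σ hm
  refine ⟨C, ?_⟩
  intro N hN y hy hyN lam hlam
  set l0 : Fin r := ⟨0, by omega⟩ with hl0
  set l1 : Fin r := ⟨1, by omega⟩ with hl1
  have hne : y l0 ≠ y l1 := fun h => by
    have := hy h
    simp [hl0, hl1] at this
  rcases Finset.eq_empty_or_nonempty (Sol N 1 m r y lam) with h | ⟨v0, hv0⟩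
  · rw [h]; simp
  obtain ⟨hb0, ha0, p0, hp0, he0⟩ := mem_Sol.1 hv0
  have hcpos : ∀ y' : ℕ, (∀ i, v0 i ≠ y') → 0 < ∏ i, ds (v0 i) y' := fun y' h =>
    Finset.prod_pos fun i _ => ds_pos (h i)
  have hcle : ∀ y' ∈ Finset.Icc 1 N, ∏ i, ds (v0 i) y' ≤ N ^ m := by
    intro y' hy'
    calc ∏ i, ds (v0 i) y' ≤ ∏ i : Fin m, N := Finset.prod_le_prod' fun i _ => ds_le (hb0 i) hy'
      _ = N ^ m := by simp
  have h0 := (Zq_ne_zero_iff _ _).1 (ha0 l0)
  have h1 := (Zq_ne_zero_iff _ _).1 (ha0 l1)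
  refine le_trans (Nat.mul_le_mul_right _ (Finset.card_le_card ?_))
    (hC N (y l0) (y l1) (∏ i, ds (v0 i) (y l1)) (∏ i, ds (v0 i) (y l0)) hN (hyN l0) (hyN l1) hne
      (hcpos _ h1) (hcpos _ h0) (hcle _ (hyN l1)) (hcle _ (hyN l0)))
  intro v hv
  obtain ⟨hb, ha, p, hp, he⟩ := mem_Sol.1 hv
  unfold baseSet
  rw [Finset.mem_filter, Fintype.mem_piFinset]
  refine ⟨hb, fun i => ⟨(Zq_ne_zero_iff _ _).1 (ha l0) i, (Zq_ne_zero_iff _ _).1 (ha l1) i⟩, ?_⟩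
  have e1 : lam l0 * Zq v (y l0) = lam l1 * Zq v (y l1) := by
    rw [he l0, he l1]; exact degree_lt_one_eval hp _ _
  have e2 : lam l0 * Zq v0 (y l0) = lam l1 * Zq v0 (y l1) := by
    rw [he0 l0, he0 l1]; exact degree_lt_one_eval hp0 _ _
  have e3 : Zq v0 (y l1) * Zq v (y l0) = Zq v0 (y l0) * Zq v (y l1) := by
    apply mul_left_cancel₀ (mul_ne_zero (hlam l0) (hlam l1))
    calc lam l0 * lam l1 * (Zq v0 (y l1) * Zq v (y l0))
        = (lam l1 * Zq v0 (y l1)) * (lam l0 * Zq v (y l0)) := by ring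
      _ = (lam l0 * Zq v0 (y l0)) * (lam l1 * Zq v (y l1)) := by rw [e1, e2]
      _ = _ := by ring
  have e4 : |Zq v0 (y l1)| * |Zq v (y l0)| = |Zq v0 (y l0)| * |Zq v (y l1)| := by
    rw [← abs_mul, ← abs_mul, e3]
  rw [abs_Zq, abs_Zq, abs_Zq, abs_Zq] at e4
  exact_mod_cast e4

end Pool.Agent.H30.Vino
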