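import Mathlib
import Pool.Agent.H30.Vino.Sol

/-!
The induction step on the degree of the interpolating polynomial.
-/

set_option autoImplicit false

open Polynomial

namespace Pool.Agent.H30.Vino

lemma card_normalizedFactors_le (p : ℚ[X]) (hp : p ≠ 0) :
    (UniqueFactorizationMonoid.normalizedFactors p).toFinset.card ≤ p.natDegree := by
  classical
  set s := UniqueFactorizationMonoid.normalizedFactors p with hs
  have h1 : Associated s.prod p := UniqueFactorizationMonoid.prod_normalizedFactors hp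
  have h2 : s.prod.natDegree = p.natDegree :=
    natDegree_eq_of_degree_eq (degree_eq_degree_of_associated h1)
  have h3 : (0 : ℚ[X]) ∉ s := UniqueFactorizationMonoid.zero_notMem_normalizedFactors p
  rw [natDegree_multiset_prod _ h3] at h2
  have h4 : Multiset.card (s.map natDegree) • 1 ≤ (s.map natDegree).sum := by
    apply Multiset.card_nsmul_le_sum
    intro d hd
    obtain ⟨g, hg, rfl⟩ := Multiset.mem_map.1 hd
    have hirr : Irreducible g := UniqueFactorizationMonoid.irreducible_of_normalized_factor g hg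
    exact hirr.natDegree_pos
  rw [Multiset.card_map, smul_eq_mul, mul_one, h2] at h4
  exact (Multiset.toFinset_card_le s).trans h4

theorem saves_step (e m₁ m₂ σ r : ℕ) (he : 1 ≤ e) (hr : 2 * e + 1 ≤ r)
    (h1 : Saves e m₁ σ r) (h2 : Saves 1 m₂ (2 * σ) r) : Saves (e + 1) (m₁ + m₂) σ r := by
  classical
  obtain ⟨C₁, hC₁⟩ := h1
  obtain ⟨C₂, hC₂⟩ := h2
  refine ⟨2 * (e + 1) * C₁ + (2 * C₂ + 1), ?_⟩
  intro N hN y hy hyN lam hlam
  set F := Sol N (e + 1) (m₁ + m₂) r y lam with hF
  -- choice of the polynomials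
  have hex : ∀ v : Fin (m₁ + m₂) → ℕ, ∃ p : ℚ[X], v ∈ F →
      p.degree < ((e + 1 : ℕ) : WithBot ℕ) ∧ ∀ l, lam l * Zq v (y l) = p.eval (y l : ℚ) := by
    intro v
    by_cases hv : v ∈ F
    · obtain ⟨-, -, p, hp, hp'⟩ := mem_Sol.1 hv
      exact ⟨p, fun _ => ⟨hp, hp'⟩⟩
    · exact ⟨0, fun h => absurd h hv⟩
  choose pol hpol using hex
  have hadm : ∀ v ∈ F, ∀ l, Zq v (y l) ≠ 0 := fun v hv => (mem_Sol.1 hv).2.1
  have hbox : ∀ v ∈ F, ∀ i, v i ∈ Finset.Icc 1 N := fun v hv => (mem_Sol.1 hv).1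
  have hevne : ∀ v ∈ F, ∀ l, (pol v).eval (y l : ℚ) ≠ 0 := by
    intro v hv l
    rw [← (hpol v hv).2 l]
    exact mul_ne_zero (hlam l) (hadm v hv l)
  have hr0 : 0 < r := by omega
  have hpne : ∀ v ∈ F, pol v ≠ 0 := by
    intro v hv h
    have := hevne v hv ⟨0, hr0⟩
    rw [h, eval_zero] at this
    exact this rfl
  have hnat : ∀ v ∈ F, (pol v).natDegree ≤ e := by
    intro v hv
    have := (hpol v hv).1
    rw [degree_eq_natDegree (hpne v hv)] at this
    have h' : (pol v).natDegree < e + 1 := by exact_mod_cast this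
    omega
  set U : Finset (Fin m₁ → ℕ) := Fintype.piFinset fun _ : Fin m₁ => Finset.Icc 1 N with hU
  set W : Finset (Fin m₂ → ℕ) := Fintype.piFinset fun _ : Fin m₂ => Finset.Icc 1 N with hW
  have hUcard : U.card = N ^ m₁ := by simp [hU, Fintype.card_piFinset]
  have hWcard : W.card = N ^ m₂ := by simp [hW, Fintype.card_piFinset]
  set Uw : (Fin m₂ → ℕ) → Finset (Fin m₁ → ℕ) := fun w => U.filter fun u => Fin.append u w ∈ F
    with hUw
  have hFsum : F.card ≤ ∑ w ∈ W, (Uw w).card := by
    have hsub : F ⊆ W.biUnion fun w => (Uw w).image fun u => Fin.append u w := by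
      intro v hv
      rw [Finset.mem_biUnion]
      refine ⟨fun j => v (Fin.natAdd m₁ j), ?_, ?_⟩
      · rw [hW, Fintype.mem_piFinset]; intro j; exact hbox v hv _
      · rw [Finset.mem_image]
        refine ⟨fun i => v (Fin.castAdd m₂ i), ?_, Fin.append_castAdd_natAdd⟩
        simp only [hUw, Finset.mem_filter]
        refine ⟨?_, ?_⟩
        · rw [hU, Fintype.mem_piFinset]; intro j; exact hbox v hv _
        · rw [Fin.append_castAdd_natAdd]; exact hv
    refine (Finset.card_le_card hsub).trans (Finset.card_biUnion_le.trans ?_)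
    exact Finset.sum_le_sum fun w _ => Finset.card_image_le
  have hUwF : ∀ w u, u ∈ Uw w → Fin.append u w ∈ F := fun w u hu => (Finset.mem_filter.1 hu).2
  -- type A
  set TA : (Fin m₂ → ℕ) → Prop := fun w => ∃ G : ℚ[X], Irreducible G ∧
    (Uw w).card ≤ 2 * (e + 1) * ((Uw w).filter fun u => G ∣ pol (Fin.append u w)).card with hTA
  have hA : ∀ w ∈ W.filter TA, (Uw w).card * N ^ σ ≤ 2 * (e + 1) * (C₁ * N ^ m₁) := by
    intro w hw
    obtain ⟨G, hG, hcard⟩ := (Finset.mem_filter.1 hw).2
    rcases Finset.eq_empty_or_nonempty ((Uw w).filter fun u => G ∣ pol (Fin.append u w)) with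
      h | ⟨u0, hu0⟩
    · rw [h, Finset.card_empty, mul_zero, Nat.le_zero] at hcard
      rw [hcard, zero_mul]; exact Nat.zero_le _
    obtain ⟨hu0U, hu0G⟩ := Finset.mem_filter.1 hu0
    have hu0F := hUwF w u0 hu0U
    have hGev : ∀ l, G.eval (y l : ℚ) ≠ 0 := by
      intro l h
      obtain ⟨q, hq⟩ := hu0G
      apply hevne _ hu0F l
      rw [hq, eval_mul, h, zero_mul]
    have hZw : ∀ l, Zq w (y l) ≠ 0 := by
      intro l h
      apply hadm _ hu0F l
      rw [Zq_append, h, mul_zero]
    have hsub : ((Uw w).filter fun u => G ∣ pol (Fin.append u w)) ⊆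
        Sol N e m₁ r y (fun l => lam l * Zq w (y l) / G.eval (y l : ℚ)) := by
      intro u hu
      obtain ⟨huU, q, hq⟩ := Finset.mem_filter.1 hu
      have huF := hUwF w u huU
      rw [mem_Sol]
      refine ⟨?_, ?_, q, ?_, ?_⟩
      · have := (Finset.mem_filter.1 huU).1
        rw [hU, Fintype.mem_piFinset] at this
        exact this
      · intro l h
        apply hadm _ huF l
        rw [Zq_append, h, zero_mul]
      · have hq0 : q ≠ 0 := by
          rintro rfl
          rw [mul_zero] at hq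
          exact hpne _ huF hq
        have h3 := hnat _ huF
        rw [hq, natDegree_mul hG.ne_zero hq0] at h3
        have h4 := hG.natDegree_pos
        rw [degree_eq_natDegree hq0]
        have : q.natDegree < e := by omega
        exact_mod_cast this
      · intro l
        have h3 := (hpol _ huF).2 l
        rw [Zq_append, hq, eval_mul] at h3
        rw [div_mul_eq_mul_div, div_eq_iff (hGev l)]
        linarith
    calc (Uw w).card * N ^ σ
        ≤ 2 * (e + 1) * ((Uw w).filter fun u => G ∣ pol (Fin.append u w)).card * N ^ σ :=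
          Nat.mul_le_mul_right _ hcard
      _ ≤ 2 * (e + 1) *
          (Sol N e m₁ r y (fun l => lam l * Zq w (y l) / G.eval (y l : ℚ))).card * N ^ σ := by
          apply Nat.mul_le_mul_right
          apply Nat.mul_le_mul_left
          exact Finset.card_le_card hsub
      _ = 2 * (e + 1) *
          ((Sol N e m₁ r y (fun l => lam l * Zq w (y l) / G.eval (y l : ℚ))).card * N ^ σ) := by
          ring
      _ ≤ 2 * (e + 1) * (C₁ * N ^ m₁) := by
          apply Nat.mul_le_mul_left
          exact hC₁ N hN y hy hyN _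
            (fun l => div_ne_zero (mul_ne_zero (hlam l) (hZw l)) (hGev l))
  -- type B
  set WB := W.filter fun w => ¬ TA w with hWB
  set R : (Fin m₂ → ℕ) → (Fin m₁ → ℕ) × (Fin m₁ → ℕ) → Prop := fun w q =>
    q.1 ∈ Uw w ∧ q.2 ∈ Uw w ∧ IsCoprime (pol (Fin.append q.1 w)) (pol (Fin.append q.2 w)) with hR
  have hB1 : ∀ w ∈ WB, (Uw w).card ^ 2 ≤ 2 * ((U ×ˢ U).bipartiteAbove R w).card := by
    intro w hw
    have hnot : ∀ G : ℚ[X], Irreducible G →
        2 * (e + 1) * ((Uw w).filter fun u => G ∣ pol (Fin.append u w)).card ≤ (Uw w).card := by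
      intro G hG
      by_contra hcon
      push Not at hcon
      exact (Finset.mem_filter.1 hw).2 ⟨G, hG, hcon.le⟩
    have hu : ∀ u ∈ Uw w, (Uw w).card ≤ 2 * ((Uw w).filter fun u' =>
        IsCoprime (pol (Fin.append u w)) (pol (Fin.append u' w))).card := by
      intro u huU
      have huF := hUwF w u huU
      set p := pol (Fin.append u w) with hp
      set Fac := (UniqueFactorizationMonoid.normalizedFactors p).toFinset with hFac
      have hFaccard : Fac.card ≤ e :=
        (card_normalizedFactors_le p (hpne _ huF)).trans (hnat _ huF)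
      have hsub : ((Uw w).filter fun u' => ¬ IsCoprime p (pol (Fin.append u' w))) ⊆
          Fac.biUnion fun G => (Uw w).filter fun u' => G ∣ pol (Fin.append u' w) := by
        intro u' hu'
        obtain ⟨hu'U, hnc⟩ := Finset.mem_filter.1 hu'
        have h3 : ¬ ∀ z : ℚ[X], Irreducible z → z ∣ p → ¬ z ∣ pol (Fin.append u' w) := by
          intro h4
          exact hnc (isCoprime_of_irreducible_dvd (fun h5 => hpne _ huF h5.1) h4)
        push Not at h3
        obtain ⟨z, hz, hzp, hzq⟩ := h3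
        obtain ⟨G, hG, hass⟩ := UniqueFactorizationMonoid.exists_mem_normalizedFactors_of_dvd
          (hpne _ huF) hz hzp
        rw [Finset.mem_biUnion]
        refine ⟨G, by rw [hFac, Multiset.mem_toFinset]; exact hG, ?_⟩
        rw [Finset.mem_filter]
        exact ⟨hu'U, hass.symm.dvd.trans hzq⟩
      have h5 : 2 * (e + 1) * ((Uw w).filter fun u' => ¬ IsCoprime p (pol (Fin.append u' w))).card
          ≤ e * (Uw w).card := by
        calc 2 * (e + 1) * ((Uw w).filter fun u' => ¬ IsCoprime p (pol (Fin.append u' w))).card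
            ≤ 2 * (e + 1) * ∑ G ∈ Fac, ((Uw w).filter fun u' => G ∣ pol (Fin.append u' w)).card :=
              Nat.mul_le_mul_left _ ((Finset.card_le_card hsub).trans Finset.card_biUnion_le)
          _ = ∑ G ∈ Fac, 2 * (e + 1) * ((Uw w).filter fun u' => G ∣ pol (Fin.append u' w)).card := by
              rw [Finset.mul_sum]
          _ ≤ ∑ G ∈ Fac, (Uw w).card := by
              apply Finset.sum_le_sum
              intro G hG
              apply hnot
              rw [hFac, Multiset.mem_toFinset] at hG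
              exact UniqueFactorizationMonoid.irreducible_of_normalized_factor G hG
          _ = Fac.card * (Uw w).card := by rw [Finset.sum_const, smul_eq_mul]
          _ ≤ e * (Uw w).card := Nat.mul_le_mul_right _ hFaccard
      have h6 := Finset.card_filter_add_card_filter_not (s := Uw w)
        (fun u' => IsCoprime p (pol (Fin.append u' w)))
      have h7 : 2 * ((Uw w).filter fun u' => ¬ IsCoprime p (pol (Fin.append u' w))).card ≤
          (Uw w).card := by
        have h8 : (e + 1) * (2 * ((Uw w).filter fun u' =>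
            ¬ IsCoprime p (pol (Fin.append u' w))).card) ≤ (e + 1) * (Uw w).card := by
          calc (e + 1) * (2 * ((Uw w).filter fun u' =>
              ¬ IsCoprime p (pol (Fin.append u' w))).card)
              = 2 * (e + 1) * ((Uw w).filter fun u' =>
                ¬ IsCoprime p (pol (Fin.append u' w))).card := by ring
            _ ≤ e * (Uw w).card := h5
            _ ≤ (e + 1) * (Uw w).card := Nat.mul_le_mul_right _ (Nat.le_succ e)
        exact Nat.le_of_mul_le_mul_left h8 (Nat.succ_pos e)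
      omega
    have hcardR : ∑ u ∈ Uw w, ((Uw w).filter fun u' =>
        IsCoprime (pol (Fin.append u w)) (pol (Fin.append u' w))).card ≤
        ((U ×ˢ U).bipartiteAbove R w).card := by
      rw [← Finset.card_sigma]
      apply Finset.card_le_card_of_injOn (fun q => (q.1, q.2))
      · rintro ⟨u, u'⟩ hq
        simp only [Finset.coe_sigma, Set.mem_sigma_iff, Finset.mem_coe, Finset.mem_filter] at hq
        simp only [Finset.mem_coe, Finset.mem_bipartiteAbove,
          Finset.mem_product, hR]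
        exact ⟨⟨(Finset.mem_filter.1 hq.1).1, (Finset.mem_filter.1 hq.2.1).1⟩,
          hq.1, hq.2.1, hq.2.2⟩
      · rintro ⟨u, u'⟩ _ ⟨z, z'⟩ _ h
        simp only [Prod.mk.injEq] at h
        obtain ⟨rfl, rfl⟩ := h
        rfl
    calc (Uw w).card ^ 2 = ∑ u ∈ Uw w, (Uw w).card := by
          rw [Finset.sum_const, smul_eq_mul, sq]
      _ ≤ ∑ u ∈ Uw w, 2 * ((Uw w).filter fun u' =>
            IsCoprime (pol (Fin.append u w)) (pol (Fin.append u' w))).card :=
          Finset.sum_le_sum hu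
      _ = 2 * ∑ u ∈ Uw w, ((Uw w).filter fun u' =>
            IsCoprime (pol (Fin.append u w)) (pol (Fin.append u' w))).card := by
          rw [Finset.mul_sum]
      _ ≤ 2 * ((U ×ˢ U).bipartiteAbove R w).card := Nat.mul_le_mul_left _ hcardR
  have hB2 : ∀ q ∈ U ×ˢ U, (WB.bipartiteBelow R q).card * N ^ (2 * σ) ≤ C₂ * N ^ m₂ := by
    rintro ⟨u, u'⟩ -
    rcases Finset.eq_empty_or_nonempty (WB.bipartiteBelow R (u, u')) with h | ⟨w0, hw0⟩
    · rw [h, Finset.card_empty, zero_mul]; exact Nat.zero_le _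
    simp only [Finset.mem_bipartiteBelow, hR] at hw0
    obtain ⟨hw0B, hu0, hu0', hcop0⟩ := hw0
    have hF0 := hUwF _ _ hu0
    have hF0' := hUwF _ _ hu0'
    have hZ0 : ∀ l, Zq w0 (y l) ≠ 0 := by
      intro l h
      apply hadm _ hF0 l
      rw [Zq_append, h, mul_zero]
    refine le_trans (Nat.mul_le_mul_right _ (Finset.card_le_card ?_))
      (hC₂ N hN y hy hyN (fun l => 1 / Zq w0 (y l)) (fun l => one_div_ne_zero (hZ0 l)))
    intro w hw
    simp only [Finset.mem_bipartiteBelow, hR] at hw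
    obtain ⟨hwB, hu, hu', hcop⟩ := hw
    have hFu := hUwF _ _ hu
    have hFu' := hUwF _ _ hu'
    have hZu : ∀ l, Zq u (y l) ≠ 0 := by
      intro l h
      apply hadm _ hFu l
      rw [Zq_append, h, zero_mul]
    have hZw : ∀ l, Zq w (y l) ≠ 0 := by
      intro l h
      apply hadm _ hFu l
      rw [Zq_append, h, mul_zero]
    -- the product identity
    have hprod : pol (Fin.append u w) * pol (Fin.append u' w0) =
        pol (Fin.append u w0) * pol (Fin.append u' w) := by
      have hdeg : ∀ v ∈ F, ∀ v' ∈ F, (pol v * pol v').degree < ((Finset.univ : Finset (Fin r)).card : WithBot ℕ) := by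
        intro v hv v' hv'
        rw [degree_eq_natDegree (mul_ne_zero (hpne v hv) (hpne v' hv')),
          natDegree_mul (hpne v hv) (hpne v' hv'), Finset.card_univ, Fintype.card_fin]
        have := hnat v hv
        have := hnat v' hv'
        have : (pol v).natDegree + (pol v').natDegree < r := by omega
        exact_mod_cast this
      refine Polynomial.eq_of_degrees_lt_of_eval_index_eq (v := fun l => (y l : ℚ))
        (Finset.univ : Finset (Fin r)) ?_ (hdeg _ hFu _ hF0') (hdeg _ hF0 _ hFu') ?_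
      · intro l _ l' _ hll
        simp only [Nat.cast_inj] at hll
        exact hy hll
      · intro l _
        rw [eval_mul, eval_mul, ← (hpol _ hFu).2 l, ← (hpol _ hF0').2 l, ← (hpol _ hF0).2 l,
          ← (hpol _ hFu').2 l, Zq_append, Zq_append, Zq_append, Zq_append]
        ring
    have hd1 : pol (Fin.append u w0) ∣ pol (Fin.append u w) :=
      hcop0.dvd_of_dvd_mul_right (hprod ▸ Dvd.intro _ rfl)
    have hd2 : pol (Fin.append u w) ∣ pol (Fin.append u w0) :=
      hcop.dvd_of_dvd_mul_right (hprod ▸ Dvd.intro _ rfl)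
    obtain ⟨c, hc⟩ := associated_of_dvd_dvd hd1 hd2
    obtain ⟨a, ha, hac⟩ := Polynomial.isUnit_iff.1 c.isUnit
    rw [mem_Sol]
    refine ⟨?_, hZw, C a, ?_, ?_⟩
    · have := (Finset.mem_filter.1 hwB).1
      rw [hW, Fintype.mem_piFinset] at this
      exact this
    · exact lt_of_le_of_lt degree_C_le (by norm_num)
    · intro l
      rw [eval_C]
      have h3 : (pol (Fin.append u w)).eval (y l : ℚ) =
          (pol (Fin.append u w0)).eval (y l : ℚ) * a := by
        rw [← hc, eval_mul, ← hac, eval_C]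
      rw [← (hpol _ hFu).2 l, ← (hpol _ hF0).2 l, Zq_append, Zq_append] at h3
      have h4 : Zq w (y l) = Zq w0 (y l) * a := by
        apply mul_left_cancel₀ (mul_ne_zero (hlam l) (hZu l))
        linarith
      rw [h4]
      field_simp [hZ0 l]
  have hB : (∑ w ∈ WB, (Uw w).card) * N ^ σ ≤ (2 * C₂ + 1) * N ^ (m₁ + m₂) := by
    have hcs : (∑ w ∈ WB, (Uw w).card) ^ 2 ≤ WB.card * ∑ w ∈ WB, (Uw w).card ^ 2 := by
      exact sq_sum_le_card_mul_sum_sq
    have hWBcard : WB.card ≤ N ^ m₂ := hWcard ▸ Finset.card_filter_le _ _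
    have h5 : (∑ w ∈ WB, (Uw w).card ^ 2) * N ^ (2 * σ) ≤ 2 * (N ^ (2 * m₁) * (C₂ * N ^ m₂)) := by
      calc (∑ w ∈ WB, (Uw w).card ^ 2) * N ^ (2 * σ)
          ≤ (∑ w ∈ WB, 2 * ((U ×ˢ U).bipartiteAbove R w).card) * N ^ (2 * σ) :=
            Nat.mul_le_mul_right _ (Finset.sum_le_sum hB1)
        _ = 2 * ((∑ w ∈ WB, ((U ×ˢ U).bipartiteAbove R w).card) * N ^ (2 * σ)) := by
            rw [← Finset.mul_sum]; ring
        _ = 2 * ∑ q ∈ U ×ˢ U, (WB.bipartiteBelow R q).card * N ^ (2 * σ) := by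
            rw [Finset.sum_card_bipartiteAbove_eq_sum_card_bipartiteBelow, Finset.sum_mul]
        _ ≤ 2 * ∑ q ∈ U ×ˢ U, C₂ * N ^ m₂ :=
            Nat.mul_le_mul_left _ (Finset.sum_le_sum hB2)
        _ = 2 * (N ^ (2 * m₁) * (C₂ * N ^ m₂)) := by
            rw [Finset.sum_const, Finset.card_product, hUcard, smul_eq_mul]; ring
    have h6 : ((∑ w ∈ WB, (Uw w).card) * N ^ σ) ^ 2 ≤ ((2 * C₂ + 1) * N ^ (m₁ + m₂)) ^ 2 := by
      calc ((∑ w ∈ WB, (Uw w).card) * N ^ σ) ^ 2
          = (∑ w ∈ WB, (Uw w).card) ^ 2 * N ^ (2 * σ) := by ring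
        _ ≤ (WB.card * ∑ w ∈ WB, (Uw w).card ^ 2) * N ^ (2 * σ) := Nat.mul_le_mul_right _ hcs
        _ = WB.card * ((∑ w ∈ WB, (Uw w).card ^ 2) * N ^ (2 * σ)) := by ring
        _ ≤ N ^ m₂ * (2 * (N ^ (2 * m₁) * (C₂ * N ^ m₂))) := Nat.mul_le_mul hWBcard h5
        _ = 2 * C₂ * (N ^ (m₁ + m₂)) ^ 2 := by ring
        _ ≤ (2 * C₂ + 1) ^ 2 * (N ^ (m₁ + m₂)) ^ 2 := by
            apply Nat.mul_le_mul_right
            nlinarith
        _ = ((2 * C₂ + 1) * N ^ (m₁ + m₂)) ^ 2 := by ring
    exact (Nat.pow_le_pow_iff_left (by norm_num)).1 h6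
  have hAsum : (∑ w ∈ W.filter TA, (Uw w).card) * N ^ σ ≤
      2 * (e + 1) * C₁ * N ^ (m₁ + m₂) := by
    calc (∑ w ∈ W.filter TA, (Uw w).card) * N ^ σ
        = ∑ w ∈ W.filter TA, (Uw w).card * N ^ σ := by rw [Finset.sum_mul]
      _ ≤ ∑ w ∈ W.filter TA, 2 * (e + 1) * (C₁ * N ^ m₁) := Finset.sum_le_sum hA
      _ = (W.filter TA).card * (2 * (e + 1) * (C₁ * N ^ m₁)) := by
          rw [Finset.sum_const, smul_eq_mul]
      _ ≤ N ^ m₂ * (2 * (e + 1) * (C₁ * N ^ m₁)) :=
          Nat.mul_le_mul_right _ (hWcard ▸ Finset.card_filter_le _ _)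
      _ = 2 * (e + 1) * C₁ * N ^ (m₁ + m₂) := by ring
  calc F.card * N ^ σ ≤ (∑ w ∈ W, (Uw w).card) * N ^ σ := Nat.mul_le_mul_right _ hFsum
    _ = (∑ w ∈ W.filter TA, (Uw w).card) * N ^ σ + (∑ w ∈ WB, (Uw w).card) * N ^ σ := by
        rw [← add_mul, hWB, Finset.sum_filter_add_sum_filter_not]
    _ ≤ 2 * (e + 1) * C₁ * N ^ (m₁ + m₂) + (2 * C₂ + 1) * N ^ (m₁ + m₂) :=
        Nat.add_le_add hAsum hB
    _ = (2 * (e + 1) * C₁ + (2 * C₂ + 1)) * N ^ (m₁ + m₂) := by ring

end Pool.Agent.H30.Vino
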