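import Mathlib
import Pool.Agent.H30.Vino.Step
import Pool.Agent.H30.Vino.Perm

/-!
Counting the non-diagonal solutions of the Vinogradov system in `k + t` pairs of variables.
-/

set_option autoImplicit false

open Polynomial

namespace Pool.Agent.H30.Vino

theorem saves_all (σ r : ℕ) (hr : 2 ≤ r) : ∀ e : ℕ, 1 ≤ e → 2 * e ≤ r + 1 →
    ∀ m : ℕ, σ * (4 * e - 2) + e ≤ m → Saves e m σ r := by
  intro e he
  induction e, he using Nat.le_induction with
  | base =>
    intro _ m hm
    exact saves_one m σ r hr (by omega)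
  | succ e he ih =>
    intro hr2 m hm
    have h1 : σ * (4 * (e + 1) - 2) = σ * (4 * e - 2) + 4 * σ := by
      have : 4 * (e + 1) - 2 = (4 * e - 2) + 4 := by omega
      rw [this]; ring
    rw [h1] at hm
    obtain ⟨m₁, rfl⟩ : ∃ m₁, m = m₁ + (4 * σ + 1) := ⟨m - (4 * σ + 1), by omega⟩
    exact saves_step e m₁ (4 * σ + 1) σ r he (by omega) (ih (by omega) m₁ (by omega))
      (saves_one _ _ _ hr (by omega))

/-- The non-diagonal solutions of the system in the box. -/
noncomputable def nonDiag (s k N : ℕ) : Finset ((Fin s → ℕ) × (Fin s → ℕ)) :=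
  open Classical in
  ((Fintype.piFinset fun _ : Fin s => Finset.Icc 1 N) ×ˢ
    (Fintype.piFinset fun _ : Fin s => Finset.Icc 1 N)).filter fun p =>
      SamePow k p.1 p.2 ∧ ¬ ∃ τ : Equiv.Perm (Fin s), ∀ i, p.1 (τ i) = p.2 i

lemma mem_nonDiag {s k N : ℕ} {p : (Fin s → ℕ) × (Fin s → ℕ)} :
    p ∈ nonDiag s k N ↔ ((∀ i, p.1 i ∈ Finset.Icc 1 N) ∧ (∀ i, p.2 i ∈ Finset.Icc 1 N)) ∧
      SamePow k p.1 p.2 ∧ ¬ ∃ τ : Equiv.Perm (Fin s), ∀ i, p.1 (τ i) = p.2 i := by
  classical
  unfold nonDiag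
  rw [Finset.mem_filter, Finset.mem_product, Fintype.mem_piFinset, Fintype.mem_piFinset]

lemma exists_eta {s : ℕ} (t r : ℕ) (x y : Fin s → ℕ)
    (hL : (Pp x - Pp y).degree < ((t : ℕ) : WithBot ℕ)) (hne : Pp x ≠ Pp y)
    (hcard : r + t ≤ (Finset.univ.image y).card + 1) :
    ∃ η : Fin r → ℕ, Function.Injective η ∧ (∀ l, ∃ i, y i = η l) ∧
      ∀ l, (Pp x).eval (η l : ℚ) ≠ 0 := by
  classical
  set L := Pp x - Pp y with hLdef
  have hL0 : L ≠ 0 := sub_ne_zero.2 hne
  have hLn : L.natDegree < t := by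
    rw [degree_eq_natDegree hL0] at hL
    exact_mod_cast hL
  set bad := (Finset.univ.image y).filter fun a : ℕ => L.eval (a : ℚ) = 0 with hbad
  set good := (Finset.univ.image y).filter fun a : ℕ => ¬ L.eval (a : ℚ) = 0 with hgood
  have hbadcard : bad.card ≤ L.natDegree := by
    have h1 : (bad.image fun a : ℕ => (a : ℚ)).card ≤ L.natDegree := by
      apply card_le_degree_of_subset_roots
      intro q hq
      rw [Finset.mem_val, Finset.mem_image] at hq
      obtain ⟨a, ha, rfl⟩ := hq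
      rw [mem_roots hL0, IsRoot.def]
      exact (Finset.mem_filter.1 ha).2
    rwa [Finset.card_image_of_injective _ Nat.cast_injective] at h1
  have hsum : bad.card + good.card = (Finset.univ.image y).card :=
    Finset.card_filter_add_card_filter_not _
  have hgoodcard : r ≤ good.card := by omega
  obtain ⟨T, hT, hTcard⟩ := Finset.exists_subset_card_eq hgoodcard
  refine ⟨fun l => T.orderEmbOfFin hTcard l, (T.orderEmbOfFin hTcard).injective, ?_, ?_⟩
  · intro l
    have h1 := hT (Finset.orderEmbOfFin_mem T hTcard l)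
    have h2 := (Finset.mem_filter.1 h1).1
    obtain ⟨i, -, hi⟩ := Finset.mem_image.1 h2
    exact ⟨i, hi⟩
  · intro l
    have h1 := hT (Finset.orderEmbOfFin_mem T hTcard l)
    obtain ⟨h2, h3⟩ := Finset.mem_filter.1 h1
    obtain ⟨i, -, hi⟩ := Finset.mem_image.1 h2
    have h4 : (Pp y).eval ((T.orderEmbOfFin hTcard l : ℕ) : ℚ) = 0 :=
      (Pp_eval_eq_zero _ _).2 ⟨i, hi⟩
    intro h5
    apply h3
    rw [hLdef, eval_sub, h4, h5, sub_zero]

lemma Zq_eq {s : ℕ} (x : Fin s → ℕ) (a : ℕ) : Zq x a = (-1) ^ s * (Pp x).eval (a : ℚ) := by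
  rw [Pp_eval]
  unfold Zq
  rw [← Fin.prod_const, ← Finset.prod_mul_distrib]
  apply Finset.prod_congr rfl
  intro i _
  ring

theorem card_many (s k t δ N : ℕ) (hN : 1 ≤ N) (ht : 2 ≤ t) (hsk : s - k ≤ t) (C₀ : ℕ)
    (hC : ∀ y : Fin (2 * t - 1) → ℕ, Function.Injective y →
      (∀ l, y l ∈ Finset.Icc 1 N) → ∀ lam : Fin (2 * t - 1) → ℚ, (∀ l, lam l ≠ 0) →
      (Sol N t s (2 * t - 1) y lam).card * N ^ (2 * t - 1 + δ) ≤ C₀ * N ^ s) :
    ((nonDiag s k N).filter fun p => 3 * t - 2 ≤ (Finset.univ.image p.2).card).card * N ^ δ ≤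
      s ^ s * C₀ * N ^ s := by
  classical
  set r := 2 * t - 1 with hr
  set H : Finset (Fin r → ℕ) := (Fintype.piFinset fun _ : Fin r => Finset.Icc 1 N).filter
    Function.Injective with hH
  set Fib : (Fin r → ℕ) → (Fin s → ℕ) → Finset (Fin s → ℕ) := fun η x =>
    (Fintype.piFinset fun _ : Fin s => Finset.Icc 1 N).filter fun y =>
      (Pp x - Pp y).degree < ((t : ℕ) : WithBot ℕ) ∧ ∀ l, (Pp y).eval (η l : ℚ) = 0 with hFib
  have hFibcard : ∀ η ∈ H, ∀ x, (Fib η x).card ≤ s ^ s := by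
    intro η hη x
    apply card_values_le
    intro z hz z' hz'
    obtain ⟨-, hz1, hz2⟩ := Finset.mem_filter.1 hz
    obtain ⟨-, hz1', hz2'⟩ := Finset.mem_filter.1 hz'
    have hinj := (Finset.mem_filter.1 hη).2
    have htr : ((t : ℕ) : WithBot ℕ) ≤ ((Finset.univ : Finset (Fin r)).card : WithBot ℕ) := by
      rw [Finset.card_univ, Fintype.card_fin]
      have : t ≤ r := by omega
      exact_mod_cast this
    have h1 : Pp x - Pp z = Pp x - Pp z' := by
      refine Polynomial.eq_of_degrees_lt_of_eval_index_eq (v := fun l => (η l : ℚ))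
        (Finset.univ : Finset (Fin r)) ?_ (hz1.trans_le htr) (hz1'.trans_le htr) ?_
      · intro l _ l' _ hll
        simp only [Nat.cast_inj] at hll
        exact hinj hll
      · intro l _
        rw [eval_sub, eval_sub, hz2, hz2']
    exact sub_right_injective h1
  have hsub : ((nonDiag s k N).filter fun p => 3 * t - 2 ≤ (Finset.univ.image p.2).card) ⊆
      H.biUnion fun η => (Sol N t s r η fun _ => 1).biUnion fun x =>
        (Fib η x).image fun y => (x, y) := by
    rintro ⟨x, y⟩ hp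
    obtain ⟨hp1, hp2⟩ := Finset.mem_filter.1 hp
    obtain ⟨⟨hx, hy⟩, hsame, hnd⟩ := mem_nonDiag.1 hp1
    simp only at hx hy hsame hnd hp2
    have hdeg : (Pp x - Pp y).degree < ((t : ℕ) : WithBot ℕ) :=
      (degree_sub_lt k x y hsame).trans_le (by exact_mod_cast hsk)
    have hne : Pp x ≠ Pp y := fun h => hnd (exists_perm_of_Pp_eq x y h)
    obtain ⟨η, hη1, hη2, hη3⟩ := exists_eta t r x y hdeg hne (by omega)
    have hη4 : ∀ l, (Pp y).eval (η l : ℚ) = 0 := fun l => (Pp_eval_eq_zero _ _).2 (hη2 l)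
    rw [Finset.mem_biUnion]
    refine ⟨η, ?_, ?_⟩
    · rw [hH, Finset.mem_filter, Fintype.mem_piFinset]
      refine ⟨fun l => ?_, hη1⟩
      obtain ⟨i, hi⟩ := hη2 l
      rw [← hi]; exact hy i
    · rw [Finset.mem_biUnion]
      refine ⟨x, ?_, ?_⟩
      · rw [mem_Sol]
        refine ⟨hx, ?_, C ((-1) ^ s) * (Pp x - Pp y), ?_, ?_⟩
        · intro l
          rw [Zq_eq]
          exact mul_ne_zero (pow_ne_zero _ (by norm_num)) (hη3 l)
        · rw [degree_C_mul (pow_ne_zero _ (by norm_num))]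
          exact hdeg
        · intro l
          rw [one_mul, Zq_eq, eval_mul, eval_C, eval_sub, hη4, sub_zero]
      · rw [Finset.mem_image]
        refine ⟨y, ?_, rfl⟩
        rw [hFib, Finset.mem_filter, Fintype.mem_piFinset]
        exact ⟨hy, hdeg, hη4⟩
  have hcard : ((nonDiag s k N).filter fun p =>
      3 * t - 2 ≤ (Finset.univ.image p.2).card).card ≤
      ∑ η ∈ H, (Sol N t s r η fun _ => 1).card * s ^ s := by
    refine (Finset.card_le_card hsub).trans (Finset.card_biUnion_le.trans ?_)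
    apply Finset.sum_le_sum
    intro η hη
    apply Finset.card_biUnion_le_card_mul
    intro x _
    exact Finset.card_image_le.trans (hFibcard η hη x)
  have hHcard : H.card ≤ N ^ r := by
    refine (Finset.card_filter_le _ _).trans ?_
    simp [Fintype.card_piFinset]
  have h1 : ((nonDiag s k N).filter fun p =>
      3 * t - 2 ≤ (Finset.univ.image p.2).card).card * N ^ (r + δ) ≤
      N ^ r * (s ^ s * C₀ * N ^ s) := by
    calc ((nonDiag s k N).filter fun p =>
          3 * t - 2 ≤ (Finset.univ.image p.2).card).card * N ^ (r + δ)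
        ≤ (∑ η ∈ H, (Sol N t s r η fun _ => 1).card * s ^ s) * N ^ (r + δ) :=
          Nat.mul_le_mul_right _ hcard
      _ = ∑ η ∈ H, s ^ s * ((Sol N t s r η fun _ => 1).card * N ^ (r + δ)) := by
          rw [Finset.sum_mul]
          apply Finset.sum_congr rfl
          intro η _
          ring
      _ ≤ ∑ η ∈ H, s ^ s * (C₀ * N ^ s) := by
          apply Finset.sum_le_sum
          intro η hη
          obtain ⟨hη1, hη2⟩ := Finset.mem_filter.1 hη
          exact Nat.mul_le_mul_left _ (hC η hη2 (Fintype.mem_piFinset.1 hη1) _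
            (fun _ => one_ne_zero))
      _ = H.card * (s ^ s * (C₀ * N ^ s)) := by rw [Finset.sum_const, smul_eq_mul]
      _ ≤ N ^ r * (s ^ s * (C₀ * N ^ s)) := Nat.mul_le_mul_right _ hHcard
      _ = N ^ r * (s ^ s * C₀ * N ^ s) := by ring
  have h2 : 0 < N ^ r := Nat.pow_pos hN
  apply Nat.le_of_mul_le_mul_left _ h2
  calc N ^ r * (((nonDiag s k N).filter fun p =>
          3 * t - 2 ≤ (Finset.univ.image p.2).card).card * N ^ δ)
      = ((nonDiag s k N).filter fun p =>
          3 * t - 2 ≤ (Finset.univ.image p.2).card).card * N ^ (r + δ) := by ring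
    _ ≤ _ := h1

lemma card_fix (k t N : ℕ) (y : Fin (k + t) → ℕ) :
    ((Fintype.piFinset fun _ : Fin (k + t) => Finset.Icc 1 N).filter fun x =>
      ∀ j : ℕ, 1 ≤ j → j ≤ k → ∑ i, x i ^ j = ∑ i, y i ^ j).card ≤ N ^ t * k ^ k := by
  classical
  set A : (Fin t → ℕ) → Finset (Fin k → ℕ) := fun w =>
    (Fintype.piFinset fun _ : Fin k => Finset.Icc 1 N).filter fun u =>
      ∀ j : ℕ, 1 ≤ j → j ≤ k → ∑ i, (Fin.append u w) i ^ j = ∑ i, y i ^ j with hA
  have hsub : ((Fintype.piFinset fun _ : Fin (k + t) => Finset.Icc 1 N).filter fun x =>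
      ∀ j : ℕ, 1 ≤ j → j ≤ k → ∑ i, x i ^ j = ∑ i, y i ^ j) ⊆
      (Fintype.piFinset fun _ : Fin t => Finset.Icc 1 N).biUnion fun w =>
        (A w).image fun u => Fin.append u w := by
    intro x hx
    obtain ⟨hx1, hx2⟩ := Finset.mem_filter.1 hx
    rw [Fintype.mem_piFinset] at hx1
    rw [Finset.mem_biUnion]
    refine ⟨fun j => x (Fin.natAdd k j), ?_, ?_⟩
    · rw [Fintype.mem_piFinset]; intro j; exact hx1 _
    · rw [Finset.mem_image]
      refine ⟨fun i => x (Fin.castAdd t i), ?_, Fin.append_castAdd_natAdd⟩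
      rw [hA, Finset.mem_filter, Fintype.mem_piFinset]
      refine ⟨fun j => hx1 _, ?_⟩
      rw [Fin.append_castAdd_natAdd]
      exact hx2
  have hAcard : ∀ w, (A w).card ≤ k ^ k := by
    intro w
    apply card_values_le
    intro z hz z' hz'
    obtain ⟨-, h1⟩ := Finset.mem_filter.1 hz
    obtain ⟨-, h2⟩ := Finset.mem_filter.1 hz'
    have h3 : SamePow k z z' := by
      intro j hj1 hj2
      have e1 := h1 j hj1 hj2
      have e2 := h2 j hj1 hj2
      rw [← e2, Fin.sum_univ_add, Fin.sum_univ_add] at e1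
      simp only [Fin.append_left, Fin.append_right] at e1
      omega
    have h4 := degree_sub_lt k z z' h3
    rw [Nat.sub_self] at h4
    have h5 : Pp z - Pp z' = 0 := by
      by_contra h6
      rw [degree_eq_natDegree h6] at h4
      have : (Pp z - Pp z').natDegree < 0 := by exact_mod_cast h4
      omega
    exact sub_eq_zero.1 h5
  refine (Finset.card_le_card hsub).trans ?_
  refine (Finset.card_biUnion_le_card_mul _ _ (k ^ k)
    (fun w _ => Finset.card_image_le.trans (hAcard w))).trans ?_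
  simp [Fintype.card_piFinset]

lemma card_few_values (s D N : ℕ) (hN : 1 ≤ N) :
    ((Fintype.piFinset fun _ : Fin s => Finset.Icc 1 N).filter fun y =>
      (Finset.univ.image y).card ≤ D).card ≤ D ^ s * N ^ D := by
  classical
  have hsub : ((Fintype.piFinset fun _ : Fin s => Finset.Icc 1 N).filter fun y =>
      (Finset.univ.image y).card ≤ D) ⊆
      ((Fintype.piFinset fun _ : Fin D => Finset.Icc 1 N) ×ˢ
        (Finset.univ : Finset (Fin s → Fin D))).image fun q => fun i => q.1 (q.2 i) := by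
    intro y hy
    obtain ⟨hy1, hy2⟩ := Finset.mem_filter.1 hy
    rw [Fintype.mem_piFinset] at hy1
    set Y := Finset.univ.image y with hY
    have hmem : ∀ i, y i ∈ Y := fun i => Finset.mem_image_of_mem _ (Finset.mem_univ i)
    rw [Finset.mem_image]
    refine ⟨(fun j => if h : j.val < Y.card then (Y.equivFin.symm ⟨j.val, h⟩).val else 1,
      fun i => Fin.castLE hy2 (Y.equivFin ⟨y i, hmem i⟩)), ?_, ?_⟩
    · rw [Finset.mem_product, Fintype.mem_piFinset]
      refine ⟨?_, Finset.mem_univ _⟩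
      intro j
      simp only
      split_ifs with h
      · have h1 := (Y.equivFin.symm ⟨j.val, h⟩).2
        obtain ⟨i, -, hi⟩ := Finset.mem_image.1 h1
        rw [← hi]; exact hy1 i
      · rw [Finset.mem_Icc]; exact ⟨le_refl _, hN⟩
    · funext i
      simp only [Fin.val_castLE]
      rw [dif_pos (Y.equivFin ⟨y i, hmem i⟩).2]
      simp
  refine (Finset.card_le_card hsub).trans (Finset.card_image_le.trans ?_)
  rw [Finset.card_product, Fintype.card_piFinset]
  simp [mul_comm]

theorem card_few (k t δ N : ℕ) (hN : 1 ≤ N) (ht : 2 ≤ t) (hk : 3 * t - 3 + δ ≤ k) :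
    ((nonDiag (k + t) k N).filter fun p => ¬ 3 * t - 2 ≤ (Finset.univ.image p.2).card).card *
      N ^ δ ≤ ((3 * t - 3) ^ (k + t) * k ^ k) * N ^ (k + t) := by
  classical
  set Y := (Fintype.piFinset fun _ : Fin (k + t) => Finset.Icc 1 N).filter fun y =>
      (Finset.univ.image y).card ≤ 3 * t - 3 with hY
  have hsub : ((nonDiag (k + t) k N).filter fun p =>
      ¬ 3 * t - 2 ≤ (Finset.univ.image p.2).card) ⊆
      Y.biUnion fun y => ((Fintype.piFinset fun _ : Fin (k + t) => Finset.Icc 1 N).filter fun x =>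
      ∀ j : ℕ, 1 ≤ j → j ≤ k → ∑ i, x i ^ j = ∑ i, y i ^ j).image fun x => (x, y) := by
    rintro ⟨x, y⟩ hp
    obtain ⟨hp1, hp2⟩ := Finset.mem_filter.1 hp
    obtain ⟨⟨hx, hy⟩, hsame, hnd⟩ := mem_nonDiag.1 hp1
    simp only at hx hy hsame hnd hp2
    rw [Finset.mem_biUnion]
    refine ⟨y, ?_, ?_⟩
    · rw [hY, Finset.mem_filter, Fintype.mem_piFinset]
      exact ⟨hy, by omega⟩
    · rw [Finset.mem_image]
      refine ⟨x, ?_, rfl⟩
      rw [Finset.mem_filter, Fintype.mem_piFinset]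
      exact ⟨hx, hsame⟩
  have hcard : ((nonDiag (k + t) k N).filter fun p =>
      ¬ 3 * t - 2 ≤ (Finset.univ.image p.2).card).card ≤
      (3 * t - 3) ^ (k + t) * N ^ (3 * t - 3) * (N ^ t * k ^ k) := by
    refine (Finset.card_le_card hsub).trans ?_
    refine (Finset.card_biUnion_le_card_mul _ _ (N ^ t * k ^ k)
      (fun y _ => Finset.card_image_le.trans (card_fix k t N y))).trans ?_
    exact Nat.mul_le_mul_right _ (card_few_values (k + t) (3 * t - 3) N hN)
  calc ((nonDiag (k + t) k N).filter fun p =>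
      ¬ 3 * t - 2 ≤ (Finset.univ.image p.2).card).card * N ^ δ
      ≤ (3 * t - 3) ^ (k + t) * N ^ (3 * t - 3) * (N ^ t * k ^ k) * N ^ δ :=
        Nat.mul_le_mul_right _ hcard
    _ = ((3 * t - 3) ^ (k + t) * k ^ k) * N ^ (3 * t - 3 + t + δ) := by ring
    _ ≤ ((3 * t - 3) ^ (k + t) * k ^ k) * N ^ (k + t) := by
        apply Nat.mul_le_mul_left
        exact Nat.pow_le_pow_right hN (by omega)

/-- The number of non-diagonal solutions with `s = k + t` is at most `C N^(s-δ)`. -/
theorem card_nonDiag (t δ k : ℕ) (ht : 2 ≤ t) (hk : 2 * (2 * t - 1) * (2 * t - 1 + δ) ≤ k) :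
    ∃ C : ℕ, ∀ N : ℕ, 1 ≤ N → (nonDiag (k + t) k N).card * N ^ δ ≤ C * N ^ (k + t) := by
  classical
  obtain ⟨C, hC⟩ := saves_all (2 * t - 1 + δ) (2 * t - 1) (by omega) t (by omega) (by omega)
    (k + t) (by
      have h1 : 4 * t - 2 = 2 * (2 * t - 1) := by omega
      rw [h1, mul_comm]
      omega)
  refine ⟨(k + t) ^ (k + t) * C + (3 * t - 3) ^ (k + t) * k ^ k, ?_⟩
  intro N hN
  have h1 := card_many (k + t) k t δ N hN ht (by omega) C (hC N hN)
  have h2 := card_few k t δ N hN ht (by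
    have h3 : 3 * (3 + δ) ≤ (2 * t - 1) * (2 * t - 1 + δ) :=
      Nat.mul_le_mul (by omega) (by omega)
    have h4 : (2 * t - 1) * 3 ≤ (2 * t - 1) * (2 * t - 1 + δ) := Nat.mul_le_mul_left _ (by omega)
    have h5 : 2 * (2 * t - 1) * (2 * t - 1 + δ) = 2 * ((2 * t - 1) * (2 * t - 1 + δ)) := by ring
    omega)
  have h3 := Finset.card_filter_add_card_filter_not (s := nonDiag (k + t) k N)
    (fun p => 3 * t - 2 ≤ (Finset.univ.image p.2).card)
  rw [← h3, add_mul, add_mul]
  exact Nat.add_le_add h1 h2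

end Pool.Agent.H30.Vino
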